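import Pool.Agent.MP_0946c8_al.Defs

section

set_option autoImplicit false

namespace Pool.Agent.MP_0946c8_al

open Turing

section Reach

variable {A Γ Q : Type} [Inhabited Γ] {k : ℕ} (M : MultiTapeTM A Γ Q k)

/-- `c'` is reached from `c` in `t` steps without passing through a halting state before. -/
def Reach (c c' : Q × (Fin (k + 1) → Tape Γ)) (t : ℕ) : Prop :=
  M.step^[t] c = c' ∧ ∀ s < t, M.answer (M.step^[s] c).1 = none

theorem Reach.refl (c : Q × (Fin (k + 1) → Tape Γ)) : Reach M c c 0 :=
  ⟨rfl, fun _ h => absurd h (Nat.not_lt_zero _)⟩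

variable {M}

theorem Reach.trans {c c' c'' : Q × (Fin (k + 1) → Tape Γ)} {t t' : ℕ}
    (h : Reach M c c' t) (h' : Reach M c' c'' t') : Reach M c c'' (t + t') := by
  refine ⟨by rw [add_comm t, Function.iterate_add_apply, h.1, h'.1], ?_⟩
  intro s hs
  by_cases hst : s < t
  · exact h.2 s hst
  · obtain ⟨u, rfl⟩ := Nat.exists_eq_add_of_le (not_lt.mp hst)
    rw [add_comm t, Function.iterate_add_apply, h.1]
    exact h'.2 u (by omega)

theorem Reach.single {c c' : Q × (Fin (k + 1) → Tape Γ)} (h : M.answer c.1 = none)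
    (e : M.step c = c') : Reach M c c' 1 := by
  refine ⟨e, ?_⟩
  intro s hs
  obtain rfl : s = 0 := by omega
  exact h

theorem Reach.haltsAt {w : List A} {c : Q × (Fin (k + 1) → Tape Γ)} {t : ℕ} {b : Bool}
    (h : Reach M (M.init w) c t) (hb : M.answer c.1 = some b) : M.HaltsAt w t b :=
  ⟨by rw [h.1]; exact hb, h.2⟩

end Reach

section Sweep

variable {A C S : Type}

/-- One left-to-right pass of a finite-state transducer over a list of cells. -/
def pass (tr : S → A → C → S × C) : S → List (A × C) → S × List (A × C)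
  | s, [] => (s, [])
  | s, x :: l => ((pass tr (tr s x.1 x.2).1 l).1,
      (x.1, (tr s x.1 x.2).2) :: (pass tr (tr s x.1 x.2).1 l).2)

theorem pass_length (tr : S → A → C → S × C) (s : S) (l : List (A × C)) :
    (pass tr s l).2.length = l.length := by
  induction l generalizing s with
  | nil => rfl
  | cons x l ih => simp [pass, ih]

/-- Start state and tape content of pass number `i`. -/
def stage (tr : S → A → C → S × C) (s0 s1 : S) (l0 : List (A × C)) : ℕ → S × List (A × C)
  | 0 => (s0, l0)
  | i + 1 => (s1, (pass tr (stage tr s0 s1 l0 i).1 (stage tr s0 s1 l0 i).2).2)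

theorem stage_length (tr : S → A → C → S × C) (s0 s1 : S) (l0 : List (A × C)) (i : ℕ) :
    (stage tr s0 s1 l0 i).2.length = l0.length := by
  induction i with
  | zero => rfl
  | succ i ih => simp [stage, pass_length, ih]

/-- The one-tape machine that repeats passes until `out` gives an answer. -/
def sweepTM (c0 : C) (s0 s1 : S) (tr : S → A → C → S × C) (out : S → Option Bool) :
    MultiTapeTM A (Option (A × C)) (S ⊕ Option Bool) 0 where
  enc a := some (a, c0)
  enc_injective a b h := by simpa using h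
  enc_ne_blank a := by simp [default]
  start := Sum.inl s0
  answer q := Sum.elim (fun _ => none) id q
  trans q h :=
    match q, h 0 with
    | Sum.inl s, some x =>
        (Sum.inl (tr s x.1 x.2).1, fun _ => (some (x.1, (tr s x.1 x.2).2), some Dir.right))
    | Sum.inl s, none => (Sum.inr (out s), fun _ => (none, some Dir.left))
    | Sum.inr _, some x => (Sum.inr none, fun _ => (some x, some Dir.left))
    | Sum.inr _, none => (Sum.inl s1, fun _ => (none, some Dir.right))

variable (c0 : C) (s0 s1 : S) (tr : S → A → C → S × C) (out : S → Option Bool)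

theorem sweep_run (l : List (A × C)) : ∀ (s : S) (L : List (A × C)),
    Reach (sweepTM c0 s0 s1 tr out)
      (Sum.inl s, fun _ => Tape.mk₂ (L.map some) (l.map some))
      (Sum.inl (pass tr s l).1, fun _ => Tape.mk₂ (((pass tr s l).2.reverse ++ L).map some) [])
      l.length := by
  induction l with
  | nil => intro s L; exact Reach.refl _ _
  | cons x l ih =>
    intro s L
    have h1 : Reach (sweepTM c0 s0 s1 tr out)
        (Sum.inl s, fun _ => Tape.mk₂ (L.map some) ((x :: l).map some))
        (Sum.inl (tr s x.1 x.2).1,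
          fun _ => Tape.mk₂ (((x.1, (tr s x.1 x.2).2) :: L).map some) (l.map some)) 1 := by
      apply Reach.single rfl
      simp [MultiTapeTM.step, sweepTM, Tape.mk₂, act]
    have h2 := h1.trans (ih (tr s x.1 x.2).1 ((x.1, (tr s x.1 x.2).2) :: L))
    rw [add_comm 1 l.length] at h2
    simpa [pass] using h2

theorem sweep_end (s : S) (L : List (A × C)) :
    Reach (sweepTM c0 s0 s1 tr out)
      (Sum.inl s, fun _ => Tape.mk₂ (L.map some) [])
      (Sum.inr (out s), fun _ => (Tape.mk₂ (L.map some) []).move Dir.left) 1 := by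
  apply Reach.single rfl
  have h : (Tape.mk₂ (L.map some) ([] : List (Option (A × C)))).head = none := rfl
  simp only [MultiTapeTM.step, sweepTM, h, act, Option.elim]
  rw [← h, Tape.write_self]

theorem sweep_back (L : List (A × C)) : ∀ (R : List (A × C)),
    Reach (sweepTM c0 s0 s1 tr out)
      (Sum.inr none, fun _ => (Tape.mk₂ (L.map some) (R.map some)).move Dir.left)
      (Sum.inl s1, fun _ => Tape.mk₂ [] ((L.reverse ++ R).map some)) (L.length + 1) := by
  induction L with
  | nil =>
    intro R
    apply Reach.single rfl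
    have h : ((Tape.mk₂ (([] : List (A × C)).map some) (R.map some)).move Dir.left).head =
        none := rfl
    simp only [MultiTapeTM.step, sweepTM, h, act, Option.elim]
    rw [← h, Tape.write_self, Tape.move_left_right]
    rfl
  | cons x L ih =>
    intro R
    have h1 : Reach (sweepTM c0 s0 s1 tr out)
        (Sum.inr none, fun _ => (Tape.mk₂ ((x :: L).map some) (R.map some)).move Dir.left)
        (Sum.inr none, fun _ => (Tape.mk₂ (L.map some) ((x :: R).map some)).move Dir.left) 1 := by
      apply Reach.single rfl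
      simp [MultiTapeTM.step, sweepTM, Tape.mk₂, act]
    have h2 := h1.trans (ih (x :: R))
    rw [add_comm 1 (L.length + 1)] at h2
    simpa using h2

theorem sweep_stage (w : List A) (p : ℕ)
    (h : ∀ i < p, out (pass tr (stage tr s0 s1 (w.map (·, c0)) i).1
      (stage tr s0 s1 (w.map (·, c0)) i).2).1 = none) :
    Reach (sweepTM c0 s0 s1 tr out) ((sweepTM c0 s0 s1 tr out).init w)
      (Sum.inl (stage tr s0 s1 (w.map (·, c0)) p).1,
        fun _ => Tape.mk₂ [] ((stage tr s0 s1 (w.map (·, c0)) p).2.map some))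
      (p * (2 * w.length + 2)) := by
  induction p with
  | zero =>
    have : (sweepTM c0 s0 s1 tr out).init w = (Sum.inl (stage tr s0 s1 (w.map (·, c0)) 0).1,
        fun _ => Tape.mk₂ [] ((stage tr s0 s1 (w.map (·, c0)) 0).2.map some)) := by
      refine Prod.ext rfl ?_
      funext i
      have hi : i = 0 := Fin.ext (by omega)
      simp [MultiTapeTM.init, hi, sweepTM, stage, Tape.mk₁, Function.comp_def]
    rw [this, zero_mul]
    exact Reach.refl _ _
  | succ p ih =>
    have h1 := ih (fun i hi => h i (by omega))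
    set st := stage tr s0 s1 (w.map (·, c0)) p with hst
    have h2 := sweep_run c0 s0 s1 tr out st.2 st.1 []
    have h3 := sweep_end c0 s0 s1 tr out (pass tr st.1 st.2).1 ((pass tr st.1 st.2).2.reverse ++ [])
    rw [h p (by omega)] at h3
    have h4 := sweep_back c0 s0 s1 tr out ((pass tr st.1 st.2).2.reverse ++ []) []
    have h5 := ((h1.trans h2).trans h3).trans h4
    have hl : st.2.length = w.length := by rw [hst, stage_length]; simp
    have e : p * (2 * w.length + 2) + st.2.length + 1 +
        (((pass tr st.1 st.2).2.reverse ++ []).length + 1) = (p + 1) * (2 * w.length + 2) := by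
      simp only [List.append_nil, List.length_reverse, pass_length, hl]
      ring
    rw [e] at h5
    simpa [stage, ← hst] using h5

theorem sweep_halts (w : List A) (p : ℕ) (b : Bool)
    (h : ∀ i < p, out (pass tr (stage tr s0 s1 (w.map (·, c0)) i).1
      (stage tr s0 s1 (w.map (·, c0)) i).2).1 = none)
    (hb : out (pass tr (stage tr s0 s1 (w.map (·, c0)) p).1
      (stage tr s0 s1 (w.map (·, c0)) p).2).1 = some b) :
    (sweepTM c0 s0 s1 tr out).HaltsAt w (p * (2 * w.length + 2) + w.length + 1) b := by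
  have h1 := sweep_stage c0 s0 s1 tr out w p h
  set st := stage tr s0 s1 (w.map (·, c0)) p with hst
  have h2 := sweep_run c0 s0 s1 tr out st.2 st.1 []
  have h3 := sweep_end c0 s0 s1 tr out (pass tr st.1 st.2).1 ((pass tr st.1 st.2).2.reverse ++ [])
  have hl : st.2.length = w.length := by rw [hst, stage_length]; simp
  have h5 := (h1.trans h2).trans h3
  rw [hl] at h5
  exact h5.haltsAt hb

end Sweep

end Pool.Agent.MP_0946c8_al

end

section

set_option autoImplicit false

namespace Pool.Agent.MP_0946c8_al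

open Finset

variable {A D E : Type} [Fintype D]

/-- The linear map attached to the letter `a`. -/
def lin (L : A → D → D → ℕ) (a : A) (v : D → ℕ) : D → ℕ := fun d => ∑ e, L a d e * v e

/-- Value computed from the start vector `v` along a list of letters with carries. -/
def Val (L : A → D → D → ℕ) {B : ℕ} : (D → ℕ) → List (A × (D → Fin (B + 1))) → D → ℕ
  | v, [] => v
  | v, x :: l => Val L (fun d => lin L x.1 v d + x.2 d) l

/-- All intermediate values are at most `M`. -/
def Small (L : A → D → D → ℕ) {B : ℕ} (M : ℕ) : (D → ℕ) → List (A × (D → Fin (B + 1))) → Prop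
  | _, [] => True
  | v, x :: l => (∀ d, lin L x.1 v d + x.2 d ≤ M) ∧ Small L M (fun d => lin L x.1 v d + x.2 d) l

/-- The digit transducer. -/
def dtr (L : A → D → D → ℕ) (l B : ℕ) (s : (D → Fin (l + 1)) × Bool) (a : A)
    (c : D → Fin (B + 1)) : ((D → Fin (l + 1)) × Bool) × (D → Fin (B + 1)) :=
  ((fun d => Fin.ofNat (l + 1) (lin L a (fun e => s.1 e) d + c d),
    s.2 && decide (∀ d, (lin L a (fun e => s.1 e) d + c d) / (l + 1) = 0)),
    fun d => Fin.ofNat (B + 1) ((lin L a (fun e => s.1 e) d + c d) / (l + 1)))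

variable (L : A → D → D → ℕ) (l B : ℕ)

theorem lin_le (hB : ∀ a d, ∑ e, L a d e ≤ B) (a : A) (v : D → ℕ) (K : ℕ) (hv : ∀ e, v e ≤ K)
    (d : D) : lin L a v d ≤ B * K := by
  calc lin L a v d ≤ ∑ e, L a d e * K :=
        Finset.sum_le_sum fun e _ => Nat.mul_le_mul_left _ (hv e)
    _ = (∑ e, L a d e) * K := by rw [Finset.sum_mul]
    _ ≤ B * K := Nat.mul_le_mul_right _ (hB a d)

theorem dtr_carry (hB : ∀ a d, ∑ e, L a d e ≤ B) (s : (D → Fin (l + 1)) × Bool) (a : A)
    (c : D → Fin (B + 1)) (d : D) :
    ((dtr L l B s a c).2 d : ℕ) = (lin L a (fun e => s.1 e) d + c d) / (l + 1) := by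
  simp only [dtr, Fin.val_ofNat]
  apply Nat.mod_eq_of_lt
  have h1 := lin_le L B hB a (fun e => s.1 e) l (fun e => Nat.lt_succ_iff.mp (s.1 e).2) d
  have h2 := (c d).2
  rw [Nat.div_lt_iff_lt_mul (by omega)]
  nlinarith

theorem dtr_step (hB : ∀ a d, ∑ e, L a d e ≤ B) (s : (D → Fin (l + 1)) × Bool) (a : A)
    (c : D → Fin (B + 1)) (y : D → ℕ) :
    (fun d => lin L a (fun e => s.1 e + (l + 1) * y e) d + c d) =
      fun d => (dtr L l B s a c).1.1 d + (l + 1) * (lin L a y d + (dtr L l B s a c).2 d) := by
  funext d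
  rw [dtr_carry L l B hB]
  have h1 : lin L a (fun e => s.1 e + (l + 1) * y e) d =
      lin L a (fun e => s.1 e) d + (l + 1) * lin L a y d := by
    simp only [lin, Finset.mul_sum, ← Finset.sum_add_distrib]
    exact Finset.sum_congr rfl fun e _ => by ring
  have h2 := Nat.mod_add_div (lin L a (fun e => s.1 e) d + c d) (l + 1)
  simp only [dtr, Fin.val_ofNat]
  rw [h1, mul_add]
  omega

theorem pass_val (hB : ∀ a d, ∑ e, L a d e ≤ B) (lst : List (A × (D → Fin (B + 1)))) :
    ∀ (s : (D → Fin (l + 1)) × Bool) (y : D → ℕ),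
      Val L (fun e => s.1 e + (l + 1) * y e) lst =
        fun d => (pass (dtr L l B) s lst).1.1 d + (l + 1) * Val L y (pass (dtr L l B) s lst).2 d := by
  induction lst with
  | nil => intro s y; rfl
  | cons x lst ih =>
    intro s y
    simp only [Val, pass]
    rw [dtr_step L l B hB, ih]

theorem pass_small (hB : ∀ a d, ∑ e, L a d e ≤ B) (M : ℕ)
    (lst : List (A × (D → Fin (B + 1)))) :
    ∀ (s : (D → Fin (l + 1)) × Bool) (y : D → ℕ),
      Small L M (fun e => s.1 e + (l + 1) * y e) lst →
        Small L (M / (l + 1)) y (pass (dtr L l B) s lst).2 := by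
  induction lst with
  | nil => intro s y _; trivial
  | cons x lst ih =>
    intro s y h
    simp only [Small, pass] at h ⊢
    have e := dtr_step L l B hB s x.1 x.2 y
    refine ⟨fun d => ?_, ih _ _ (e ▸ h.2)⟩
    have h1 := h.1 d
    rw [congrFun e d] at h1
    rw [Nat.le_div_iff_mul_le (by omega)]
    nlinarith

theorem pass_flag (hB : ∀ a d, ∑ e, L a d e ≤ B) (lst : List (A × (D → Fin (B + 1)))) :
    ∀ (s : (D → Fin (l + 1)) × Bool), (pass (dtr L l B) s lst).1.2 = true ↔
      s.2 = true ∧ ∀ x ∈ (pass (dtr L l B) s lst).2, ∀ d, (x.2 d : ℕ) = 0 := by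
  induction lst with
  | nil => intro s; simp [pass]
  | cons x lst ih =>
    intro s
    simp only [pass, List.forall_mem_cons, ih, dtr_carry L l B hB]
    simp only [dtr, Bool.and_eq_true, decide_eq_true_iff, and_assoc]

theorem small_zero (lst : List (A × (D → Fin (B + 1)))) :
    ∀ v, Small L 0 v lst → ∀ x ∈ lst, ∀ d, (x.2 d : ℕ) = 0 := by
  induction lst with
  | nil => intro v _ x hx; simp at hx
  | cons y lst ih =>
    intro v h x hx d
    rcases List.mem_cons.mp hx with rfl | hx
    · have := h.1 d; omega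
    · exact ih _ h.2 x hx d

theorem val_zero (lst : List (A × (D → Fin (B + 1)))) (h : ∀ x ∈ lst, ∀ d, (x.2 d : ℕ) = 0) :
    Val L (fun _ => 0) lst = fun _ => 0 := by
  induction lst with
  | nil => rfl
  | cons y lst ih =>
    simp only [Val]
    have : (fun d => lin L y.1 (fun _ => 0) d + y.2 d) = fun _ => 0 := by
      funext d
      simp [lin, h y (List.mem_cons_self) d]
    rw [this]
    exact ih fun x hx => h x (List.mem_cons_of_mem _ hx)

theorem val_init (w : List A) : ∀ v : D → ℕ,
    Val L v (w.map (·, (0 : D → Fin (B + 1)))) = w.foldl (fun u a => lin L a u) v := by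
  induction w with
  | nil => intro v; rfl
  | cons a w ih => intro v; simp [Val, ih]

theorem small_init (hB : ∀ a d, ∑ e, L a d e ≤ B) (M : ℕ) (w : List A) :
    ∀ (v : D → ℕ) (K : ℕ), (∀ d, v d ≤ K) → K * (B + 1) ^ w.length ≤ M →
      Small L M v (w.map (·, (0 : D → Fin (B + 1)))) := by
  induction w with
  | nil => intro v K _ _; trivial
  | cons a w ih =>
    intro v K hv hK
    simp only [List.map_cons, Small, Pi.zero_apply, Fin.val_zero, add_zero]
    have h1 : ∀ d, lin L a v d ≤ K * (B + 1) := fun d => by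
      have := lin_le L B hB a v K hv d
      nlinarith
    rw [List.length_cons, pow_succ'] at hK
    have h2 : 1 ≤ (B + 1) ^ w.length := Nat.one_le_pow _ _ (by omega)
    exact ⟨fun d => (h1 d).trans (by nlinarith), ih _ _ h1 (by rw [mul_assoc]; exact hK)⟩

open Classical in
/-- The decision taken at the end of a pass. -/
noncomputable def dout (α β : E → D) (s : (D → Fin (l + 1)) × Bool) : Option Bool :=
  if ∀ e, s.1 (α e) = s.1 (β e) then (if s.2 then some true else none) else some false

open Classical in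
theorem digit_machine (hB : ∀ a d, ∑ e, L a d e ≤ B) (hl : 1 ≤ l) (v0 : D → Fin (l + 1))
    (α β : E → D) (w : List A) :
    ∃ (t : ℕ) (b : Bool),
      (sweepTM (0 : D → Fin (B + 1)) (v0, true) (0, true) (dtr L l B) (dout l α β)).HaltsAt w t b ∧
      (b = true ↔ ∀ e, w.foldl (fun u a => lin L a u) (fun d => v0 d) (α e) =
        w.foldl (fun u a => lin L a u) (fun d => v0 d) (β e)) ∧
      t ≤ (2 * w.length + 2) * ((range (B * w.length + 1)).filter (fun k => ∀ e,
        w.foldl (fun u a => lin L a u) (fun d => v0 d) (α e) ≡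
          w.foldl (fun u a => lin L a u) (fun d => v0 d) (β e) [MOD (l + 1) ^ k])).card := by
  set V := w.foldl (fun u a => lin L a u) (fun d => (v0 d : ℕ)) with hV
  let st := stage (dtr L l B) (v0, true) (0, true) (w.map (·, (0 : D → Fin (B + 1))))
  let fin := fun i => (pass (dtr L l B) (st i).1 (st i).2).1
  have hst : ∀ i, st (i + 1) = ((0, true), (pass (dtr L l B) (st i).1 (st i).2).2) := fun i => rfl
  have hflag : ∀ i, (st i).1.2 = true := by
    intro i; cases i <;> rfl
  have hrec : ∀ i d, Val L (fun e => ((st i).1.1 e : ℕ)) (st i).2 d =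
      (fin i).1 d + (l + 1) * Val L (fun e => ((st (i + 1)).1.1 e : ℕ)) (st (i + 1)).2 d := by
    intro i d
    have := congrFun (pass_val L l B hB (st i).2 (st i).1 (fun _ => 0)) d
    simpa [hst] using this
  have hval : ∀ i d, Val L (fun e => ((st i).1.1 e : ℕ)) (st i).2 d = V d / (l + 1) ^ i := by
    intro i
    induction i with
    | zero =>
      intro d
      rw [pow_zero, Nat.div_one, hV, ← val_init L B]
      rfl
    | succ i ih =>
      intro d
      rw [pow_succ, ← Nat.div_div_eq_div_mul, ← ih, hrec i, Nat.add_mul_div_left _ _ (Nat.succ_pos l),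
        Nat.div_eq_of_lt ((fin i).1 d).2, zero_add]
  have hdig : ∀ i d, ((fin i).1 d : ℕ) = V d / (l + 1) ^ i % (l + 1) := by
    intro i d
    rw [← hval, hrec, Nat.add_mul_mod_self_left, Nat.mod_eq_of_lt ((fin i).1 d).2]
  have hsmall : ∀ i, Small L (l * (B + 1) ^ w.length / (l + 1) ^ i)
      (fun e => ((st i).1.1 e : ℕ)) (st i).2 := by
    intro i
    induction i with
    | zero =>
      rw [pow_zero, Nat.div_one]
      exact small_init L B hB _ w _ l (fun d => Nat.lt_succ_iff.mp (v0 d).2) le_rfl
    | succ i ih =>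
      rw [pow_succ, ← Nat.div_div_eq_div_mul]
      have := pass_small L l B hB _ (st i).2 (st i).1 (fun _ => 0) (by simpa using ih)
      simpa [hst] using this
  have hterm : (fin (B * w.length)).2 = true := by
    have h1 := hsmall (B * w.length + 1)
    have h2 : l * (B + 1) ^ w.length / (l + 1) ^ (B * w.length + 1) = 0 := by
      apply Nat.div_eq_of_lt
      have a1 : B + 1 ≤ (l + 1) ^ B :=
        le_trans Nat.lt_two_pow_self (Nat.pow_le_pow_left (by omega) B)
      have a2 : (B + 1) ^ w.length ≤ (l + 1) ^ (B * w.length) := by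
        rw [pow_mul]; exact Nat.pow_le_pow_left a1 _
      have a3 : 1 ≤ (l + 1) ^ (B * w.length) := Nat.one_le_pow _ _ (by omega)
      rw [pow_succ]
      nlinarith
    rw [h2] at h1
    exact (pass_flag L l B hB _ _).mpr ⟨hflag _, small_zero L B _ _ h1⟩
  have hex : ∃ i, dout l α β (fin i) ≠ none := by
    refine ⟨B * w.length, ?_⟩
    simp only [dout, hterm]
    split_ifs <;> simp
  let p := Nat.find hex
  have hp1 : dout l α β (fin p) ≠ none := Nat.find_spec hex
  have hp2 : ∀ i < p, dout l α β (fin i) = none := fun i hi => by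
    simpa using Nat.find_min hex hi
  have hp3 : p ≤ B * w.length := by
    apply Nat.find_min'
    simp only [dout, hterm]
    split_ifs <;> simp
  have hchk : ∀ i < p, ∀ e, (fin i).1 (α e) = (fin i).1 (β e) := by
    intro i hi
    have := hp2 i hi
    by_contra hne
    simp only [dout, if_neg hne] at this
    simp at this
  have heq : ∀ k, (∀ i < k, ∀ e, (fin i).1 (α e) = (fin i).1 (β e)) →
      ∀ e, V (α e) ≡ V (β e) [MOD (l + 1) ^ k] := by
    intro k
    induction k with
    | zero => intro _ e; simp [Nat.modEq_one]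
    | succ k ih =>
      intro h e
      have h1 := ih (fun i hi => h i (by omega)) e
      have h2 := congrArg Fin.val (h k (by omega) e)
      rw [hdig, hdig] at h2
      unfold Nat.ModEq at h1 ⊢
      rw [Nat.mod_pow_succ, Nat.mod_pow_succ, h1, h2]
  obtain ⟨b, hb⟩ := Option.ne_none_iff_exists'.mp hp1
  refine ⟨_, b, sweep_halts _ _ _ _ _ w p b hp2 hb, ?_, ?_⟩
  · by_cases hc : ∀ e, (fin p).1 (α e) = (fin p).1 (β e)
    · simp only [dout, if_pos hc] at hb
      have hf : (fin p).2 = true := by
        by_contra hf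
        simp [hf] at hb
      have hb' : b = true := by simpa [hf] using hb.symm
      refine ⟨fun _ e => ?_, fun _ => hb'⟩
      have h1 := heq (p + 1) (fun i hi => by
        rcases Nat.lt_succ_iff_lt_or_eq.mp hi with h | h
        · exact hchk i h
        · rw [h]; exact hc) e
      have h2 : ∀ d, V d / (l + 1) ^ (p + 1) = 0 := by
        intro d
        rw [← hval, hst]
        have := val_zero L B _ ((pass_flag L l B hB (st p).2 (st p).1).mp hf).2
        simpa using congrFun this d
      have hpos : 0 < (l + 1) ^ (p + 1) := by positivity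
      exact Nat.ModEq.eq_of_lt_of_lt h1 ((Nat.div_eq_zero_iff_lt hpos).mp (h2 _))
        ((Nat.div_eq_zero_iff_lt hpos).mp (h2 _))
    · simp only [dout, if_neg hc] at hb
      have hb' : b = false := by simpa using hb.symm
      refine ⟨fun h => by simp [hb'] at h, fun h => (hc fun e => Fin.ext ?_).elim⟩
      rw [hdig, hdig, h e]
  · have h1 : p + 1 ≤ ((range (B * w.length + 1)).filter (fun k => ∀ e,
        V (α e) ≡ V (β e) [MOD (l + 1) ^ k])).card := by
      rw [← Finset.card_range (p + 1)]
      apply Finset.card_le_card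
      intro k hk
      rw [Finset.mem_range] at hk
      refine Finset.mem_filter.mpr ⟨Finset.mem_range.mpr (by omega), ?_⟩
      exact heq k fun i hi => hchk i (by omega)
    calc p * (2 * w.length + 2) + w.length + 1 ≤ (2 * w.length + 2) * (p + 1) := by nlinarith
      _ ≤ _ := Nat.mul_le_mul_left _ h1

end Pool.Agent.MP_0946c8_al

end

section

set_option autoImplicit false

namespace Pool.Agent.MP_0946c8_al

open Finset

variable {A : Type} {m : ℕ}

theorem exists_integral_model [Fintype A] (γ : A → GL (Fin m) ℚ) :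
    ∃ (N : ℕ) (M : A → Matrix (Fin m) (Fin m) ℤ), 1 ≤ N ∧
      ∀ a, (Int.castRingHom ℚ).mapMatrix (M a) = (N : ℚ) • (γ a : Matrix (Fin m) (Fin m) ℚ) := by
  let N : ℕ := ∏ p : A × Fin m × Fin m, ((γ p.1 : Matrix (Fin m) (Fin m) ℚ) p.2.1 p.2.2).den
  have h : ∀ a i j, ∃ z : ℤ, (z : ℚ) = N * (γ a : Matrix (Fin m) (Fin m) ℚ) i j := by
    intro a i j
    obtain ⟨c, hc⟩ : ((γ a : Matrix (Fin m) (Fin m) ℚ) i j).den ∣ N :=
      Finset.dvd_prod_of_mem
        (fun p : A × Fin m × Fin m => ((γ p.1 : Matrix (Fin m) (Fin m) ℚ) p.2.1 p.2.2).den)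
        (Finset.mem_univ (a, i, j))
    refine ⟨c * ((γ a : Matrix (Fin m) (Fin m) ℚ) i j).num, ?_⟩
    rw [hc]
    push_cast
    rw [← Rat.mul_den_eq_num]
    ring
  choose M hM using h
  refine ⟨N, fun a => Matrix.of (M a), Finset.prod_pos fun p _ => Rat.den_pos _, ?_⟩
  intro a
  ext i j
  simp [hM]

/-- The defect `∏ M a - N ^ length` of a word. -/
def defect (N : ℕ) (M : A → Matrix (Fin m) (Fin m) ℤ) (w : List A) : Matrix (Fin m) (Fin m) ℤ :=
  (w.map M).prod - ((N : ℤ) ^ w.length) • (1 : Matrix (Fin m) (Fin m) ℤ)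

section Model

variable {γ : A → GL (Fin m) ℚ} {N : ℕ} {M : A → Matrix (Fin m) (Fin m) ℤ}

theorem mapMatrix_cast_injective :
    Function.Injective ((Int.castRingHom ℚ).mapMatrix : Matrix (Fin m) (Fin m) ℤ → _) := by
  intro X Y h
  ext i j
  have := congrFun (congrFun h i) j
  simpa using this

theorem prod_cast
    (hM : ∀ a, (Int.castRingHom ℚ).mapMatrix (M a) = (N : ℚ) • (γ a : Matrix (Fin m) (Fin m) ℚ))
    (w : List A) : (Int.castRingHom ℚ).mapMatrix (w.map M).prod =
      ((N : ℚ) ^ w.length) • (((w.map γ).prod : GL (Fin m) ℚ) : Matrix (Fin m) (Fin m) ℚ) := by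
  induction w with
  | nil => simp
  | cons a w ih =>
    rw [List.map_cons, List.prod_cons, map_mul, ih, hM, List.map_cons, List.prod_cons,
      Units.val_mul, smul_mul_smul_comm, List.length_cons, pow_succ']

theorem cast_smul_one {R : Type} [CommRing R] (s : ℤ) :
    (Int.castRingHom R).mapMatrix (s • (1 : Matrix (Fin m) (Fin m) ℤ)) =
      (s : R) • (1 : Matrix (Fin m) (Fin m) R) := by
  rw [map_zsmul, map_one, Int.cast_smul_eq_zsmul]

theorem defect_eq_zero_iff (hN : 1 ≤ N)
    (hM : ∀ a, (Int.castRingHom ℚ).mapMatrix (M a) = (N : ℚ) • (γ a : Matrix (Fin m) (Fin m) ℚ))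
    (w : List A) : defect N M w = 0 ↔ (w.map γ).prod = 1 := by
  have hN' : (N : ℚ) ^ w.length ≠ 0 := by positivity
  rw [defect, sub_eq_zero, ← mapMatrix_cast_injective.eq_iff, prod_cast hM, cast_smul_one]
  push_cast
  rw [smul_right_inj hN', Units.val_eq_one]

theorem prod_bound (B : ℕ) (hB : ∀ a i, ∑ j, |M a i j| ≤ B) (w : List A) :
    ∀ i j, |(w.map M).prod i j| ≤ (B : ℤ) ^ w.length := by
  induction w with
  | nil =>
    intro i j
    simp only [List.map_nil, List.prod_nil, Matrix.one_apply, List.length_nil, pow_zero]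
    split_ifs <;> simp
  | cons a w ih =>
    intro i j
    rw [List.map_cons, List.prod_cons, Matrix.mul_apply, List.length_cons, pow_succ']
    calc |∑ k, M a i k * (w.map M).prod k j| ≤ ∑ k, |M a i k * (w.map M).prod k j| :=
          Finset.abs_sum_le_sum_abs _ _
      _ ≤ ∑ k, |M a i k| * (B : ℤ) ^ w.length := Finset.sum_le_sum fun k _ => by
          rw [abs_mul]; exact mul_le_mul_of_nonneg_left (ih k j) (abs_nonneg _)
      _ = (∑ k, |M a i k|) * (B : ℤ) ^ w.length := by rw [Finset.sum_mul]
      _ ≤ _ := mul_le_mul_of_nonneg_right (hB a i) (by positivity)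

theorem defect_bound (B : ℕ) (hB : ∀ a i, ∑ j, |M a i j| ≤ B) (hNB : N ≤ B) (w : List A)
    (i j : Fin m) : |defect N M w i j| ≤ 2 * (B : ℤ) ^ w.length := by
  have h1 := prod_bound B hB w i j
  have h2 : (N : ℤ) ^ w.length ≤ (B : ℤ) ^ w.length := by gcongr
  have h3 : (0 : ℤ) ≤ (N : ℤ) ^ w.length := by positivity
  simp only [defect, Matrix.sub_apply, Matrix.smul_apply, Matrix.one_apply, smul_eq_mul]
  rw [abs_le] at h1 ⊢
  split_ifs <;> constructor <;> linarith [h1.1, h1.2]

theorem exists_reduction
    (hM : ∀ a, (Int.castRingHom ℚ).mapMatrix (M a) = (N : ℚ) • (γ a : Matrix (Fin m) (Fin m) ℚ))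
    (ι : A ≃ A) (hι : ∀ a, γ (ι a) = (γ a)⁻¹) (q : ℕ) (hq : Nat.Coprime N q) :
    ∃ φ : A → (Matrix (Fin m) (Fin m) (ZMod q))ˣ, (∀ a, φ (ι a) = (φ a)⁻¹) ∧
      ∀ w : List A, (w.map φ).prod = 1 ↔ ∀ i j, (q : ℤ) ∣ defect N M w i j := by
  let ν : (ZMod q)ˣ := ZMod.unitOfCoprime N hq
  have hν : (ν : ZMod q) = N := rfl
  let ρ := (Int.castRingHom (ZMod q)).mapMatrix (m := Fin m)
  have hmul : ∀ a b, γ a * γ b = 1 → (ν⁻¹ • ρ (M a)) * (ν⁻¹ • ρ (M b)) = 1 := by
    intro a b hab
    have h1 : M a * M b = ((N : ℤ) ^ 2) • (1 : Matrix (Fin m) (Fin m) ℤ) := by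
      apply mapMatrix_cast_injective
      rw [map_mul, hM, hM, smul_mul_smul_comm, ← Units.val_mul, hab, cast_smul_one]
      simp [sq]
    rw [smul_mul_smul_comm, ← map_mul, h1, cast_smul_one]
    push_cast
    rw [← hν, ← Units.val_pow_eq_pow_val, ← Units.smul_def, smul_smul]
    simp [sq, mul_assoc]
  let φ : A → (Matrix (Fin m) (Fin m) (ZMod q))ˣ := fun a =>
    ⟨ν⁻¹ • ρ (M a), ν⁻¹ • ρ (M (ι a)), hmul _ _ (by simp [hι]), hmul _ _ (by simp [hι])⟩
  have hval : ∀ w : List A, (((w.map φ).prod : (Matrix (Fin m) (Fin m) (ZMod q))ˣ) :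
      Matrix (Fin m) (Fin m) (ZMod q)) = (ν⁻¹ ^ w.length) • ρ (w.map M).prod := by
    intro w
    induction w with
    | nil => simp
    | cons a w ih =>
      rw [List.map_cons, List.prod_cons, Units.val_mul, ih, List.map_cons, List.prod_cons, map_mul,
        List.length_cons, pow_succ', ← smul_mul_smul_comm]
  refine ⟨φ, fun a => Units.ext rfl, ?_⟩
  intro w
  rw [← Units.val_eq_one, hval, inv_pow, inv_smul_eq_iff]
  have h1 : (ν ^ w.length) • (1 : Matrix (Fin m) (Fin m) (ZMod q)) =
      ρ (((N : ℤ) ^ w.length) • (1 : Matrix (Fin m) (Fin m) ℤ)) := by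
    rw [cast_smul_one, Units.smul_def]
    simp [hν]
  rw [h1, ← sub_eq_zero, ← map_sub, ← Matrix.ext_iff]
  refine forall_congr' fun i => forall_congr' fun j => ?_
  exact ZMod.intCast_zmod_eq_zero_iff_dvd _ q

end Model

theorem prod_inv_word {H : Type} [Group H] (φ : A → H) (ι : A → A) (hι : ∀ a, φ (ι a) = (φ a)⁻¹)
    (w : List A) : ((w.map ι).reverse.map φ).prod = ((w.map φ).prod)⁻¹ := by
  induction w with
  | nil => simp
  | cons a w ih => simp only [List.map_cons, List.reverse_cons, List.map_append, List.prod_append,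
      ih, List.map_nil, List.prod_cons, List.prod_nil, mul_one, hι, mul_inv_rev]

theorem prod_pow_word {H : Type} [Monoid H] (φ : A → H) (w : List A) (j : ℕ) :
    ((List.replicate j w).flatten.map φ).prod = (w.map φ).prod ^ j := by
  induction j with
  | zero => simp
  | succ j ih =>
    rw [List.replicate_succ, List.flatten_cons, List.map_append, List.prod_append, ih, pow_succ']

theorem binom_first (s t : ℤ) (Y : Matrix (Fin m) (Fin m) ℤ) (j : ℕ) :
    ∃ Z : Matrix (Fin m) (Fin m) ℤ, (s • (1 : Matrix (Fin m) (Fin m) ℤ) + t • Y) ^ (j + 1) =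
      s ^ (j + 1) • (1 : Matrix (Fin m) (Fin m) ℤ) + ((j + 1) * s ^ j * t) • Y + t ^ 2 • Z := by
  induction j with
  | zero => exact ⟨0, by simp⟩
  | succ j ih =>
    obtain ⟨Z, hZ⟩ := ih
    refine ⟨s • Z + ((j + 1) * s ^ j) • (Y * Y) + t • (Z * Y), ?_⟩
    rw [pow_succ _ (j + 1), hZ]
    simp only [add_mul, mul_add, smul_mul_assoc, mul_smul_comm, one_mul, mul_one]
    push_cast
    module

theorem minkowski_prime (l p : ℕ) (hl : l.Prime) (hp : p.Prime) (s : ℤ) (hs : ¬ (l : ℤ) ∣ s)
    (P : Matrix (Fin m) (Fin m) ℤ) (hP : P ^ p = s ^ p • (1 : Matrix (Fin m) (Fin m) ℤ))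
    (h2 : ∀ i j, (l : ℤ) ^ 2 ∣ (P - s • (1 : Matrix (Fin m) (Fin m) ℤ)) i j) :
    P = s • (1 : Matrix (Fin m) (Fin m) ℤ) := by
  have hl' : Prime (l : ℤ) := Nat.prime_iff_prime_int.mp hl
  have key : ∀ a, ∀ i j, (l : ℤ) ^ (a + 2) ∣ (P - s • (1 : Matrix (Fin m) (Fin m) ℤ)) i j := by
    intro a
    induction a with
    | zero => exact h2
    | succ a ih =>
      choose Y hY using ih
      have hPY : P = s • (1 : Matrix (Fin m) (Fin m) ℤ) + ((l : ℤ) ^ (a + 2)) • Matrix.of Y := by
        ext i j
        have := hY i j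
        simp only [Matrix.sub_apply] at this
        simp only [Matrix.add_apply, Matrix.smul_apply, Matrix.of_apply, smul_eq_mul] at this ⊢
        linarith
      obtain ⟨k, rfl⟩ : ∃ k, p = k + 1 := ⟨p - 1, by have := hp.pos; omega⟩
      obtain ⟨Z, hZ⟩ := binom_first s ((l : ℤ) ^ (a + 2)) (Matrix.of Y) k
      rw [← hPY, hP, add_assoc, left_eq_add] at hZ
      intro i j
      have h3 := congrFun (congrFun hZ i) j
      simp only [Matrix.add_apply, Matrix.smul_apply, Matrix.of_apply, smul_eq_mul,
        Matrix.zero_apply] at h3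
      have hne : (l : ℤ) ^ (a + 2) ≠ 0 := pow_ne_zero _ hl'.ne_zero
      have h4 : s ^ k * (((k + 1 : ℕ) : ℤ) * Y i j) = (l : ℤ) ^ 2 * (-(l : ℤ) ^ a * Z i j) := by
        apply mul_left_cancel₀ hne
        push_cast
        linear_combination h3
      have h5 : (l : ℤ) ^ 2 ∣ ((k + 1 : ℕ) : ℤ) * Y i j :=
        hl'.pow_dvd_of_dvd_mul_left 2 (fun h => hs (hl'.dvd_of_dvd_pow h)) ⟨_, h4⟩
      have h6 : (l : ℤ) ∣ Y i j := by
        by_contra hn
        have h7 : (l : ℤ) ^ 2 ∣ ((k + 1 : ℕ) : ℤ) := hl'.pow_dvd_of_dvd_mul_right 2 hn h5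
        have h8 : l ^ 2 ∣ k + 1 := by exact_mod_cast h7
        have h9 := (Nat.dvd_prime hp).mp h8
        have h10 := hl.two_le
        rcases h9 with h9 | h9
        · nlinarith
        · rw [← h9] at hp
          exact Nat.Prime.not_prime_pow (by norm_num) hp
      rw [hY i j, show a + 1 + 2 = (a + 2) + 1 by ring, pow_succ]
      exact mul_dvd_mul_left _ h6
  rw [← sub_eq_zero]
  ext i j
  by_contra hne
  obtain ⟨a, ha⟩ := pow_unbounded_of_one_lt |(P - s • (1 : Matrix (Fin m) (Fin m) ℤ)) i j|
    (show (1 : ℤ) < l by exact_mod_cast hl.one_lt)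
  have h1 := Int.le_of_dvd (abs_pos.mpr hne)
    ((dvd_abs _ _).mpr ((pow_dvd_pow (l : ℤ) (Nat.le_add_right a 2)).trans (key a i j)))
  exact absurd h1 (not_le.mpr ha)

theorem finite_or_infinite_order [Fintype A] (γ : A → GL (Fin m) ℚ) (ι : A ≃ A)
    (hι : ∀ a, γ (ι a) = (γ a)⁻¹) :
    (Set.range fun w : List A => (w.map γ).prod).Finite ∨
      ∃ u : List A, ¬ IsOfFinOrder (u.map γ).prod := by
  obtain ⟨N, M, hN, hM⟩ := exists_integral_model γ
  obtain ⟨l, hlN, hl⟩ := Nat.exists_infinite_primes (N + 1)
  have hndvd : ¬ l ∣ N := fun h => by have := Nat.le_of_dvd hN h; omega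
  have hcop : Nat.Coprime N (l ^ 2) :=
    Nat.Coprime.pow_right _ ((Nat.Prime.coprime_iff_not_dvd hl).mpr hndvd).symm
  obtain ⟨φ, hφ1, hφ2⟩ := exists_reduction hM ι hι (l ^ 2) hcop
  have : NeZero (l ^ 2) := ⟨pow_ne_zero _ hl.ne_zero⟩
  by_cases h : ∀ w : List A, (w.map φ).prod = 1 → (w.map γ).prod = 1
  · left
    have h1 : ∀ u v : List A, (u.map φ).prod = (v.map φ).prod →
        (u.map γ).prod = (v.map γ).prod := by
      intro u v huv
      have := h (u ++ (v.map ι).reverse) (by
        rw [List.map_append, List.prod_append, prod_inv_word φ ι hφ1, huv, mul_inv_cancel])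
      rwa [List.map_append, List.prod_append, prod_inv_word γ ι hι, mul_inv_eq_one] at this
    classical
    let F : (Matrix (Fin m) (Fin m) (ZMod (l ^ 2)))ˣ → GL (Fin m) ℚ := fun x =>
      if hx : ∃ w : List A, (w.map φ).prod = x then (hx.choose.map γ).prod else 1
    apply (Set.finite_range F).subset
    rintro _ ⟨w, rfl⟩
    have hx : ∃ w' : List A, (w'.map φ).prod = (w.map φ).prod := ⟨w, rfl⟩
    exact ⟨(w.map φ).prod, by simp only [F, dif_pos hx]; exact h1 _ _ hx.choose_spec⟩
  · right
    push Not at h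
    obtain ⟨w, hw1, hw2⟩ := h
    refine ⟨w, fun hfin => ?_⟩
    have ho : orderOf (w.map γ).prod ≠ 1 := fun e => hw2 (orderOf_eq_one_iff.mp e)
    obtain ⟨p, hp, c, hc⟩ := Nat.exists_prime_and_dvd ho
    have hpos := hfin.orderOf_pos
    let w' := (List.replicate c w).flatten
    have e1 : (w'.map φ).prod = 1 := by rw [prod_pow_word, hw1, one_pow]
    have e2 : (w'.map γ).prod = (w.map γ).prod ^ c := prod_pow_word γ w c
    have e3 : (w'.map γ).prod ^ p = 1 := by
      rw [e2, ← pow_mul, mul_comm, ← hc, pow_orderOf_eq_one]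
    have e4 : (w'.map γ).prod = 1 := by
      rw [← defect_eq_zero_iff hN hM, defect, sub_eq_zero]
      apply minkowski_prime l p hl hp
      · intro hd
        exact hndvd (by exact_mod_cast (Nat.prime_iff_prime_int.mp hl).dvd_of_dvd_pow hd)
      · apply mapMatrix_cast_injective
        rw [map_pow, prod_cast hM, smul_pow, ← Units.val_pow_eq_pow_val, e3, cast_smul_one]
        simp
      · intro i j
        have := (hφ2 w').mp e1 i j
        simpa [defect] using this
    rw [e2] at e4
    have h5 := orderOf_dvd_of_pow_eq_one e4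
    have hc0 : 0 < c := by
      rcases Nat.eq_zero_or_pos c with rfl | h
      · omega
      · exact h
    have h6 := Nat.le_of_dvd hc0 h5
    have := hp.two_le
    nlinarith

end Pool.Agent.MP_0946c8_al

end

section

set_option autoImplicit false

namespace Pool.Agent.MP_0946c8_al

open Turing

variable {A R : Type}

/-- One step of a finite automaton with an integer counter. -/
def cstep (next : R → A → R) (c : R → A → ℤ) (p : R × ℤ) (a : A) : R × ℤ :=
  (next p.1 a, p.2 + c p.1 a)

def dirOf (x : ℤ) : Option Dir :=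
  if x = 1 then some Dir.right else if x = -1 then some Dir.left else none

def modFin (B : ℕ) (t : ℤ) : Fin (B + 1) :=
  ⟨(t % (B + 1 : ℕ)).toNat, by
    have h1 := Int.emod_nonneg t (b := ((B + 1 : ℕ) : ℤ)) (by omega)
    have h2 := Int.emod_lt_of_pos t (b := ((B + 1 : ℕ) : ℤ)) (by omega)
    omega⟩

open Classical in
/-- Two-tape machine simulating a one-counter automaton in real time. -/
noncomputable def counterTM (r0 : R) (next : R → A → R) (c : R → A → ℤ) (B : ℕ) :
    MultiTapeTM A (Option (Option A)) (Option ((R × Fin (B + 1)) ⊕ Bool)) 1 where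
  enc a := some (some a)
  enc_injective a b h := by simpa using h
  enc_ne_blank a := by simp [default]
  start := none
  answer q := q.bind (Sum.elim (fun _ => none) some)
  trans q h :=
    match q, h 0 with
    | none, _ => (some (Sum.inl (r0, 0)), ![(h 0, none), (some none, none)])
    | some (Sum.inl p), some (some a) =>
        (some (Sum.inl (next p.1 a, modFin B (p.2 + c p.1 a))),
          ![(h 0, some Dir.right), (h 1, dirOf ((p.2 + c p.1 a) / (B + 1 : ℕ)))])
    | some (Sum.inl p), _ =>
        (some (Sum.inr (decide (p.1 = r0 ∧ p.2 = 0 ∧ h 1 = some none))), fun i => (h i, none))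
    | some (Sum.inr b), _ => (some (Sum.inr b), fun i => (h i, none))

def Marked (T : Tape (Option (Option A))) (pos : ℤ) : Prop :=
  ∀ j : ℤ, T.nth j = if j + pos = 0 then some none else none

theorem Marked.act {T : Tape (Option (Option A))} {pos x : ℤ} (h : Marked T pos)
    (hx : -1 ≤ x ∧ x ≤ 1) : Marked (act (T.head, dirOf x) T) (pos + x) := by
  intro j
  have : x = 1 ∨ x = -1 ∨ x = 0 := by omega
  rcases this with rfl | rfl | rfl
  · simp only [MP_0946c8_al.act, dirOf, if_true, Option.elim, Tape.write_self,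
      Tape.move_right_nth, h (j + 1)]
    congr 1
    ring_nf
  · have e : dirOf (-1) = some Dir.left := rfl
    simp only [MP_0946c8_al.act, e, Option.elim, Tape.write_self, Tape.move_left_nth, h (j - 1)]
    congr 1
    ring_nf
  · have e : dirOf 0 = none := rfl
    simp only [MP_0946c8_al.act, e, Option.elim, Tape.write_self, h j, add_zero]

variable (r0 : R) (next : R → A → R) (c : R → A → ℤ) (B : ℕ)

theorem counter_run (hB : ∀ r a, |c r a| ≤ B) (l : List A) :
    ∀ (r : R) (ρ : Fin (B + 1)) (L : ListBlank (Option (Option A)))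
      (T : Tape (Option (Option A))) (pos : ℤ), Marked T pos →
      ∃ (r' : R) (ρ' : Fin (B + 1)) (L' : ListBlank (Option (Option A)))
        (T' : Tape (Option (Option A))) (pos' : ℤ), Marked T' pos' ∧
        (r', (B + 1 : ℕ) * pos' + ρ') = l.foldl (cstep next c) (r, (B + 1 : ℕ) * pos + ρ) ∧
        Reach (counterTM r0 next c B)
          (some (Sum.inl (r, ρ)), ![Tape.mk' L (ListBlank.mk (l.map (fun a => some (some a)))), T])
          (some (Sum.inl (r', ρ')), ![Tape.mk' L' (ListBlank.mk []), T']) l.length := by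
  induction l with
  | nil =>
    intro r ρ L T pos h
    exact ⟨r, ρ, L, T, pos, h, rfl, Reach.refl _ _⟩
  | cons a l ih =>
    intro r ρ L T pos h
    have hx : -1 ≤ ((ρ : ℤ) + c r a) / (B + 1 : ℕ) ∧ ((ρ : ℤ) + c r a) / (B + 1 : ℕ) ≤ 1 := by
      have h1 := abs_le.mp (hB r a)
      have h2 := ρ.2
      constructor
      · rw [Int.le_ediv_iff_mul_le (by omega)]
        omega
      · apply Int.le_of_lt_add_one
        rw [Int.ediv_lt_iff_lt_mul (by omega)]
        omega
    obtain ⟨r', ρ', L', T', pos', h1, h2, h3⟩ := ih (next r a) (modFin B (ρ + c r a))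
      (L.cons (some (some a))) _ _ (h.act hx)
    refine ⟨r', ρ', L', T', pos', h1, ?_, ?_⟩
    · rw [h2, List.foldl_cons]
      congr 1
      simp only [cstep, modFin, Prod.mk.injEq, true_and]
      have e1 := Int.emod_nonneg ((ρ : ℤ) + c r a) (b := ((B + 1 : ℕ) : ℤ)) (by omega)
      have e2 := Int.mul_ediv_add_emod ((ρ : ℤ) + c r a) ((B + 1 : ℕ) : ℤ)
      rw [Int.toNat_of_nonneg e1]
      linear_combination e2
    · have h0 : Reach (counterTM r0 next c B)
          (some (Sum.inl (r, ρ)),
            ![Tape.mk' L (ListBlank.mk ((a :: l).map (fun a => some (some a)))), T])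
          (some (Sum.inl (next r a, modFin B (ρ + c r a))),
            ![Tape.mk' (L.cons (some (some a))) (ListBlank.mk (l.map (fun a => some (some a)))),
              act (T.head, dirOf (((ρ : ℤ) + c r a) / (B + 1 : ℕ))) T]) 1 := by
        apply Reach.single rfl
        refine Prod.ext ?_ ?_
        · simp [MultiTapeTM.step, counterTM]
        · funext i
          fin_cases i <;> simp [MultiTapeTM.step, counterTM, act]
      have h4 := h0.trans h3
      rw [add_comm 1 l.length] at h4
      exact h4

theorem counter_halts (hB : ∀ r a, |c r a| ≤ B) (w : List A) :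
    ∃ b, (counterTM r0 next c B).HaltsAt w (w.length + 2) b ∧
      (b = true ↔ w.foldl (cstep next c) (r0, 0) = (r0, 0)) := by
  classical
  have hm : Marked ((Tape.mk₁ ([] : List (Option (Option A)))).write (some none)) 0 := by
    intro j
    rw [Tape.write_nth, add_zero]
    split_ifs
    · rfl
    · rcases j with (_ | j) | j <;> rfl
  obtain ⟨r', ρ', L', T', pos', h1, h2, h3⟩ :=
    counter_run r0 next c B hB w r0 0 (ListBlank.mk []) _ 0 hm
  have h0 : Reach (counterTM r0 next c B) ((counterTM r0 next c B).init w)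
      (some (Sum.inl (r0, 0)),
        ![Tape.mk' (ListBlank.mk []) (ListBlank.mk (w.map (fun a => some (some a)))),
          (Tape.mk₁ ([] : List (Option (Option A)))).write (some none)]) 1 := by
    apply Reach.single rfl
    refine Prod.ext ?_ ?_
    · simp [MultiTapeTM.step, counterTM, MultiTapeTM.init]
    · funext i
      fin_cases i
      · exact Tape.write_self _
      · simp [MultiTapeTM.step, counterTM, act, MultiTapeTM.init, Tape.mk₁, Tape.mk₂]
  have h4 : Reach (counterTM r0 next c B)
      (some (Sum.inl (r', ρ')), ![Tape.mk' L' (ListBlank.mk []), T'])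
      (some (Sum.inr (decide (r' = r0 ∧ ρ' = 0 ∧ T'.head = some none))),
        ![Tape.mk' L' (ListBlank.mk []), T']) 1 := by
    apply Reach.single rfl
    have e : (Tape.mk' L' (ListBlank.mk [])).head = none := rfl
    refine Prod.ext ?_ ?_
    · simp [MultiTapeTM.step, counterTM, default]
    · funext i
      fin_cases i
      · simp only [MultiTapeTM.step, counterTM, act, Matrix.cons_val_zero, e, Option.elim]
        exact Tape.write_self _
      · simp only [MultiTapeTM.step, counterTM, act, Matrix.cons_val_zero, e, Option.elim]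
        exact Tape.write_self _
  have h5 := (h0.trans h3).trans h4
  rw [show 1 + w.length + 1 = w.length + 2 by ring] at h5
  refine ⟨_, h5.haltsAt rfl, ?_⟩
  have h6 := h1 0
  rw [Tape.nth_zero, zero_add] at h6
  simp only [Fin.val_zero, Nat.cast_zero, mul_zero, add_zero] at h2
  rw [← h2, decide_eq_true_iff, h6, Prod.mk.injEq]
  have h7 := ρ'.2
  constructor
  · rintro ⟨e1, e2, e3⟩
    have : pos' = 0 := by
      by_contra hne
      simp [hne] at e3
    simp [e1, e2, this]
  · rintro ⟨e1, e2⟩
    have e3 : pos' = 0 := by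
      rcases lt_trichotomy pos' 0 with h | h | h
      · push_cast at e2; nlinarith
      · exact h
      · push_cast at e2; nlinarith
    rw [e3] at e2
    refine ⟨e1, Fin.ext (by simpa using e2), by simp [e3]⟩

end Pool.Agent.MP_0946c8_al

end

section

set_option autoImplicit false

namespace Pool.Agent.MP_0946c8_al

variable {G A : Type} [Group G]

/-- The right coset of `x` modulo the cyclic subgroup generated by `z`. -/
def cls (z x : G) : Quotient (QuotientGroup.rightRel (Subgroup.zpowers z)) := Quotient.mk _ x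

theorem cls_eq_iff (z x y : G) : cls z x = cls z y ↔ ∃ k : ℤ, x = z ^ k * y := by
  rw [eq_comm, cls, cls, Quotient.eq]
  rw [QuotientGroup.rightRel_apply, Subgroup.mem_zpowers_iff]
  exact exists_congr fun k => by rw [eq_comm, mul_inv_eq_iff_eq_mul]

theorem cls_mul_right (z x y g : G) : cls z (x * g) = cls z (y * g) ↔ cls z x = cls z y := by
  simp only [cls_eq_iff, ← mul_assoc, mul_left_inj]

theorem automaton_of_finite (γ : A → G) (h : (Set.range fun w : List A => (w.map γ).prod).Finite) :
    ∃ (R : Type) (_ : Finite R) (r0 : R) (next : R → A → R) (c : R → A → ℤ),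
      ∀ w : List A, w.foldl (cstep next c) (r0, 0) = (r0, 0) ↔ (w.map γ).prod = 1 := by
  let R := Set.range fun w : List A => (w.map γ).prod
  let next : R → A → R := fun r a => ⟨r.1 * γ a, by
    obtain ⟨w, hw⟩ := r.2
    exact ⟨w ++ [a], by simp [← hw]⟩⟩
  refine ⟨R, h, ⟨1, [], rfl⟩, next, fun _ _ => 0, ?_⟩
  have key : ∀ (w : List A) (r : R), (w.foldl (cstep next fun _ _ => 0) (r, 0)).2 = 0 ∧
      (w.foldl (cstep next fun _ _ => 0) (r, 0)).1.1 = r.1 * (w.map γ).prod := by
    intro w
    induction w with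
    | nil => intro r; simp
    | cons a w ih =>
      intro r
      have := ih (next r a)
      simpa [cstep, next, mul_assoc] using this
  intro w
  have := key w ⟨1, [], rfl⟩
  rw [Prod.ext_iff, Subtype.ext_iff, this.1, this.2]
  simp

theorem automaton_of_finite_cosets (γ : A → G) (z : G) (hz : ¬ IsOfFinOrder z)
    (h : (Set.range fun w : List A => cls z (w.map γ).prod).Finite) :
    ∃ (R : Type) (_ : Finite R) (r0 : R) (next : R → A → R) (c : R → A → ℤ),
      ∀ w : List A, w.foldl (cstep next c) (r0, 0) = (r0, 0) ↔ (w.map γ).prod = 1 := by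
  classical
  let R := Set.range fun w : List A => cls z (w.map γ).prod
  let r0 : R := ⟨cls z 1, [], rfl⟩
  have hrep : ∀ r : R, ∃ w : List A, cls z (w.map γ).prod = r.1 ∧ (r = r0 → w = []) := by
    intro r
    by_cases hr : r = r0
    · exact ⟨[], by rw [hr]; rfl, fun _ => rfl⟩
    · obtain ⟨w, hw⟩ := r.2
      exact ⟨w, hw, fun e => (hr e).elim⟩
  choose rep hrep1 hrep2 using hrep
  let next : R → A → R := fun r a => ⟨cls z ((rep r ++ [a]).map γ).prod, _, rfl⟩
  have hc : ∀ (r : R) (a : A), ∃ k : ℤ,
      ((rep r).map γ).prod * γ a = z ^ k * ((rep (next r a)).map γ).prod := by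
    intro r a
    rw [← cls_eq_iff, hrep1]
    simp [next]
  choose c hc using hc
  refine ⟨R, h, r0, next, c, ?_⟩
  have key : ∀ (w : List A) (p : R × ℤ), z ^ p.2 * ((rep p.1).map γ).prod * (w.map γ).prod =
      z ^ (w.foldl (cstep next c) p).2 * ((rep (w.foldl (cstep next c) p).1).map γ).prod := by
    intro w
    induction w with
    | nil => intro p; simp
    | cons a w ih =>
      intro p
      rw [List.foldl_cons, ← ih]
      simp only [cstep, List.map_cons, List.prod_cons, zpow_add, ← mul_assoc]
      rw [mul_assoc (z ^ p.2) _ (γ a), hc, ← mul_assoc]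
  intro w
  have h1 := key w (r0, 0)
  have h0 : rep r0 = [] := hrep2 r0 rfl
  simp only [h0, zpow_zero, List.map_nil, List.prod_nil, one_mul] at h1
  constructor
  · intro e
    rw [h1, e]
    simp [h0]
  · intro e
    rw [e] at h1
    have h2 : (w.foldl (cstep next c) (r0, 0)).1 = r0 := by
      apply Subtype.ext
      rw [← hrep1, eq_comm]
      exact (cls_eq_iff _ _ _).mpr ⟨_, h1⟩
    rw [h2, h0] at h1
    have h3 : (w.foldl (cstep next c) (r0, 0)).2 = 0 := by
      apply injective_zpow_iff_not_isOfFinOrder.mpr hz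
      simpa using h1.symm
    exact Prod.ext h2 h3

theorem exists_coset_reps (γ : A → G) (z : G)
    (h : (Set.range fun w : List A => cls z (w.map γ).prod).Infinite) (n : ℕ) :
    ∃ W : Finset (List A), W.card = n ∧ (∀ w ∈ W, w.length ≤ n) ∧
      Set.InjOn (fun w : List A => cls z (w.map γ).prod) W := by
  classical
  induction n with
  | zero => exact ⟨∅, rfl, by simp, by simp⟩
  | succ n ih =>
    obtain ⟨W, h1, h2, h3⟩ := ih
    have hex : ∃ w : List A, w.length ≤ n + 1 ∧
        ∀ u ∈ W, cls z (u.map γ).prod ≠ cls z (w.map γ).prod := by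
      by_contra hcon
      push Not at hcon
      apply h
      apply Set.Finite.subset (W.finite_toSet.image (fun w : List A => cls z (w.map γ).prod))
      rintro _ ⟨w, rfl⟩
      induction w using List.reverseRecOn with
      | nil => exact hcon [] (by simp)
      | append_singleton w a ihw =>
        obtain ⟨u, hu, e⟩ := ihw
        obtain ⟨v, hv, e'⟩ := hcon (u ++ [a]) (by have := h2 u hu; simp; omega)
        refine ⟨v, hv, e'.trans ?_⟩
        simp only [List.map_append, List.prod_append, List.map_singleton, List.prod_singleton]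
        exact (cls_mul_right _ _ _ _).mpr e
    obtain ⟨w, hw1, hw2⟩ := hex
    have hwW : w ∉ W := fun hw => hw2 w hw rfl
    refine ⟨insert w W, by rw [Finset.card_insert_of_notMem hwW, h1], ?_, ?_⟩
    · intro u hu
      rcases Finset.mem_insert.mp hu with rfl | hu
      · exact hw1
      · exact (h2 u hu).trans (Nat.le_succ n)
    · rw [Finset.coe_insert, Set.injOn_insert (by simpa using hwW)]
      refine ⟨h3, ?_⟩
      rintro ⟨u, hu, e⟩
      exact hw2 u hu e

theorem exists_even_reps (γ : A → G) (a0 : A) (z : G)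
    (h : (Set.range fun w : List A => cls z (w.map γ).prod).Infinite) (r : ℕ) :
    ∃ W : Finset (List A), r ≤ W.card ∧ (∀ w ∈ W, ∃ s ≤ r, w.length = 2 * s) ∧
      Set.InjOn (fun w : List A => cls z (w.map γ).prod) W := by
  classical
  obtain ⟨W, h1, h2, h3⟩ := exists_coset_reps γ z h (2 * r)
  have h4 := Finset.card_filter_add_card_filter_not (s := W) (fun w => w.length % 2 = 0)
  by_cases hc : r ≤ (W.filter (fun w => w.length % 2 = 0)).card
  · refine ⟨_, hc, ?_, h3.mono (Finset.coe_subset.mpr (Finset.filter_subset _ _))⟩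
    intro w hw
    have := h2 w (Finset.mem_filter.mp hw).1
    have := (Finset.mem_filter.mp hw).2
    exact ⟨w.length / 2, by omega, by omega⟩
  · refine ⟨(W.filter (fun w => ¬ w.length % 2 = 0)).image (· ++ [a0]), ?_, ?_, ?_⟩
    · rw [Finset.card_image_of_injective _ (fun u v e => List.append_cancel_right e)]
      omega
    · intro w hw
      obtain ⟨u, hu, rfl⟩ := Finset.mem_image.mp hw
      have := h2 u (Finset.mem_filter.mp hu).1
      have := (Finset.mem_filter.mp hu).2
      refine ⟨(u.length + 1) / 2, by omega, ?_⟩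
      simp only [List.length_append, List.length_singleton]
      omega
    · intro w hw w' hw' e
      obtain ⟨u, hu, rfl⟩ := Finset.mem_image.mp hw
      obtain ⟨v, hv, rfl⟩ := Finset.mem_image.mp hw'
      simp only [List.map_append, List.prod_append, List.map_singleton, List.prod_singleton,
        cls_mul_right] at e
      rw [h3 (Finset.mem_filter.mp hu).1 (Finset.mem_filter.mp hv).1 e]

theorem exists_pad (γ : A → G) (a b : A) (hab : γ a * γ b = 1) (w : List A) (s : ℕ) :
    ∃ w' : List A, w'.length = w.length + 2 * s ∧ (w'.map γ).prod = (w.map γ).prod := by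
  induction s with
  | zero => exact ⟨w, rfl, rfl⟩
  | succ s ih =>
    obtain ⟨w', h1, h2⟩ := ih
    refine ⟨a :: b :: w', by simp [h1]; ring, ?_⟩
    simp [← mul_assoc, hab, h2]

theorem exists_pow_word (γ : A → G) (u : List A) (i : ℕ) :
    ∃ w : List A, w.length = i * u.length ∧ (w.map γ).prod = (u.map γ).prod ^ i := by
  induction i with
  | zero => exact ⟨[], by simp, by simp⟩
  | succ i ih =>
    obtain ⟨w, h1, h2⟩ := ih
    exact ⟨w ++ u, by simp [h1]; ring, by simp [h2, pow_succ]⟩

theorem quadratic_growth (γ : A → G) (a b : A) (hab : γ a * γ b = 1) (u : List A)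
    (hz : ¬ IsOfFinOrder (u.map γ).prod)
    (h : (Set.range fun w : List A => cls (u.map γ).prod (w.map γ).prod).Infinite) (r : ℕ) :
    ∃ F : Finset G, r ^ 2 ≤ F.card ∧
      ∀ g ∈ F, ∃ w : List A, w.length = 2 * ((u.length + 1) * r) ∧ (w.map γ).prod = g := by
  classical
  obtain ⟨W, h1, h2, h3⟩ := exists_even_reps γ a _ h r
  set z := (u.map γ).prod with hzdef
  refine ⟨(Finset.range r ×ˢ W).image (fun p => z ^ (2 * p.1) * (p.2.map γ).prod), ?_, ?_⟩
  · rw [Finset.card_image_of_injOn]
    · rw [Finset.card_product, Finset.card_range, sq]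
      exact Nat.mul_le_mul_left r h1
    · rintro ⟨i, v⟩ hp ⟨j, v'⟩ hp' e
      simp only [Finset.coe_product, Set.mem_prod, Finset.mem_coe] at hp hp' e
      have e1 : v = v' := by
        apply h3 hp.2 hp'.2
        refine (cls_eq_iff _ _ _).mpr ⟨((2 * j : ℕ) : ℤ) - (2 * i : ℕ), ?_⟩
        rw [sub_eq_neg_add, zpow_add, zpow_neg, zpow_natCast, zpow_natCast, mul_assoc, ← e]
        simp
      subst e1
      have e2 := injective_pow_iff_not_isOfFinOrder.mpr hz (mul_right_cancel e)
      simp only [Prod.mk.injEq, and_true]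
      omega
  · intro g hg
    obtain ⟨⟨i, v⟩, hp, rfl⟩ := Finset.mem_image.mp hg
    simp only [Finset.mem_product, Finset.mem_range] at hp
    obtain ⟨s, hs1, hs2⟩ := h2 v hp.2
    obtain ⟨w1, e1, e2⟩ := exists_pow_word γ u (2 * i)
    have hle : i * u.length + s ≤ (u.length + 1) * r := by nlinarith [hp.1]
    obtain ⟨t, ht⟩ := Nat.exists_eq_add_of_le hle
    obtain ⟨w2, e3, e4⟩ := exists_pad γ a b hab (w1 ++ v) t
    refine ⟨w2, ?_, by simp [e4, e2, hzdef]⟩
    rw [e3, ht, List.length_append, e1, hs2]
    ring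

end Pool.Agent.MP_0946c8_al

end
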