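import Mathlib
import Pool.Agent.Mg.F0946c8.G64e9c1

section

set_option autoImplicit false
set_option linter.unusedSectionVars false

namespace Pool.Agent.MP_0946c8_al

open Finset

theorem seq_decay (u : ℕ → ℝ) (hanti : Antitone u) (h0 : u 0 ≤ 2) (D R : ℕ) (hD : 1 ≤ D)
    (h : ∀ i r : ℕ, 1 ≤ r → r ≤ R → u i ≤ 1 / (r : ℝ) ^ 2 + D * (r : ℝ) ^ 2 * (u i - u (i + 1))) :
    ∀ r : ℕ, 1 ≤ r → r ≤ R → u (8 * D * r ^ 2) ≤ 2 / (r : ℝ) ^ 2 := by
  intro r hr
  induction r, hr using Nat.le_induction with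
  | base => intro _; simpa using (hanti (Nat.zero_le _)).trans h0
  | succ r hr ih =>
    intro hR
    have ih' := ih (by omega)
    by_contra hcon
    rw [not_le] at hcon
    have hr' : (1 : ℝ) ≤ r := by exact_mod_cast hr
    have hD' : (1 : ℝ) ≤ D := by exact_mod_cast hD
    have hstep : ∀ j : ℕ, j ≤ 8 * D * (2 * r + 1) →
        u (8 * D * r ^ 2 + j) + j * (1 / (D * ((r : ℝ) + 1) ^ 4)) ≤ u (8 * D * r ^ 2) := by
      intro j
      induction j with
      | zero => intro _; simp
      | succ j ihj =>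
        intro hj
        have a1 := ihj (by omega)
        have a2 := h (8 * D * r ^ 2 + j) (r + 1) (by omega) hR
        have a3 : u (8 * D * (r + 1) ^ 2) ≤ u (8 * D * r ^ 2 + j) := hanti (by nlinarith)
        push_cast at a2 hcon ⊢
        have a4 : 1 / (D * ((r : ℝ) + 1) ^ 4) ≤
            u (8 * D * r ^ 2 + j) - u (8 * D * r ^ 2 + j + 1) := by
          rw [div_le_iff₀ (by positivity)]
          have a5 : 1 / ((r : ℝ) + 1) ^ 2 ≤
              D * ((r : ℝ) + 1) ^ 2 * (u (8 * D * r ^ 2 + j) - u (8 * D * r ^ 2 + j + 1)) := by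
            have : 2 / ((r : ℝ) + 1) ^ 2 = 2 * (1 / ((r : ℝ) + 1) ^ 2) := by ring
            linarith
          rw [div_le_iff₀ (by positivity)] at a5
          linarith
        rw [← add_assoc]
        linarith
    have a1 := hstep _ le_rfl
    rw [show 8 * D * r ^ 2 + 8 * D * (2 * r + 1) = 8 * D * (r + 1) ^ 2 by ring] at a1
    push_cast at a1 hcon
    have a2 : 8 * (D : ℝ) * (2 * r + 1) * (1 / (D * ((r : ℝ) + 1) ^ 4)) =
        8 * (2 * r + 1) / ((r : ℝ) + 1) ^ 4 := by
      field_simp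
    have a3 : 2 / (r : ℝ) ^ 2 ≤ 2 / ((r : ℝ) + 1) ^ 2 + 8 * (2 * r + 1) / ((r : ℝ) + 1) ^ 4 := by
      rw [div_add_div _ _ (by positivity) (by positivity), div_le_div_iff₀ (by positivity)
        (by positivity)]
      have b1 : (r : ℝ) + 1 ≤ 2 * r := by linarith
      have b2 : ((r : ℝ) + 1) ^ 2 ≤ (2 * r) ^ 2 := by gcongr
      have b3 : 0 ≤ ((r : ℝ) + 1) ^ 2 * (2 * r + 1) * ((2 * r) ^ 2 - ((r : ℝ) + 1) ^ 2) := by
        have : 0 ≤ (2 * (r : ℝ)) ^ 2 - ((r : ℝ) + 1) ^ 2 := by linarith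
        positivity
      nlinarith
    linarith

variable {H A : Type} [Group H] [Fintype H] [Fintype A]

/-- Averaging operator of the random walk. -/
noncomputable def avg (φ : A → H) (f : H → ℝ) : H → ℝ :=
  fun x => (∑ a, f (φ a * x)) / Fintype.card A

/-- Squared displacement of `f` under translation by `g`. -/
def disp (f : H → ℝ) (g : H) : ℝ := ∑ x, (f x - f (g * x)) ^ 2

theorem sum_translate (F : H → ℝ) (g : H) : ∑ x, F (g * x) = ∑ x, F x :=
  Equiv.sum_comp (Equiv.mulLeft g) F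

theorem disp_eq (f : H → ℝ) (g : H) :
    disp f g = 2 * (∑ x, f x * f x) - 2 * ∑ x, f x * f (g * x) := by
  have h := sum_translate (fun x => f x * f x) g
  simp only [disp]
  rw [two_mul (∑ x, f x * f x)]
  nth_rewrite 2 [← h]
  rw [Finset.mul_sum, ← Finset.sum_add_distrib, ← Finset.sum_sub_distrib]
  exact Finset.sum_congr rfl fun x _ => by ring

theorem disp_nonneg (f : H → ℝ) (g : H) : 0 ≤ disp f g :=
  Finset.sum_nonneg fun _ _ => sq_nonneg _

theorem disp_mul (f : H → ℝ) (g h : H) (r : ℝ) :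
    r * disp f (g * h) ≤ r * (r + 1) * disp f g + (r + 1) * disp f h := by
  have e := sum_translate (fun x => (f x - f (g * x)) ^ 2) h
  simp only [disp]
  rw [← e, Finset.mul_sum, Finset.mul_sum, Finset.mul_sum, ← Finset.sum_add_distrib]
  apply Finset.sum_le_sum
  intro x _
  rw [mul_assoc g]
  nlinarith [sq_nonneg (r * (f (h * x) - f (g * (h * x))) - (f x - f (h * x)))]

theorem disp_word (φ : A → H) (f : H → ℝ) (K : ℝ) (hK : ∀ a b, disp f (φ a * φ b) ≤ K) :
    ∀ (r : ℕ) (w : List A), w.length = 2 * r → disp f (w.map φ).prod ≤ (r : ℝ) ^ 2 * K := by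
  intro r
  induction r with
  | zero =>
    intro w hw
    obtain rfl : w = [] := List.length_eq_zero_iff.mp hw
    simp [disp]
  | succ r ih =>
    intro w hw
    match w, hw with
    | a :: b :: w, hw =>
      have hw' : w.length = 2 * r := by simp at hw; omega
      have h1 := ih w hw'
      have h2 := hK a b
      simp only [List.map_cons, List.prod_cons, ← mul_assoc]
      rcases Nat.eq_zero_or_pos r with rfl | hr
      · obtain rfl : w = [] := List.length_eq_zero_iff.mp hw'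
        simpa using h2
      · have hr' : (0 : ℝ) < r := by exact_mod_cast hr
        have h3 := disp_mul f (φ a * φ b) (w.map φ).prod r
        apply le_of_mul_le_mul_left _ hr'
        push_cast
        have h4 : (r : ℝ) * (r + 1) * disp f (φ a * φ b) ≤ r * (r + 1) * K := by gcongr
        have h5 : ((r : ℝ) + 1) * disp f (w.map φ).prod ≤ (r + 1) * ((r : ℝ) ^ 2 * K) := by gcongr
        nlinarith

theorem avg_adj (φ : A → H) (ι : A ≃ A) (hι : ∀ a, φ (ι a) = (φ a)⁻¹) (f g : H → ℝ) :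
    ∑ x, avg φ f x * g x = ∑ x, f x * avg φ g x := by
  simp only [avg, div_mul_eq_mul_div, mul_div_assoc', ← Finset.sum_div, Finset.sum_mul,
    Finset.mul_sum]
  congr 1
  rw [Finset.sum_comm, Finset.sum_comm (f := fun x a => f x * g (φ a * x)),
    ← Equiv.sum_comp ι (fun a => ∑ x, f x * g (φ a * x))]
  apply Finset.sum_congr rfl
  intro a _
  rw [← sum_translate (fun x => f x * g (φ (ι a) * x)) (φ a)]
  simp [hι]

theorem avg_energy [Nonempty A] (φ : A → H) (ι : A ≃ A) (hι : ∀ a, φ (ι a) = (φ a)⁻¹)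
    (f : H → ℝ) :
    2 * (Fintype.card A : ℝ) ^ 2 * (∑ x, f x * f x - ∑ x, avg φ f x * avg φ f x) =
      ∑ a, ∑ b, disp f (φ a * φ b) := by
  have hA : (0 : ℝ) < Fintype.card A := by exact_mod_cast Fintype.card_pos
  rw [avg_adj φ ι hι]
  have e : ∑ x, f x * avg φ (avg φ f) x =
      (∑ a, ∑ b, ∑ x, f x * f (φ a * φ b * x)) / (Fintype.card A : ℝ) ^ 2 := by
    simp only [avg, mul_div_assoc', ← Finset.sum_div, Finset.mul_sum, div_div, mul_assoc]
    rw [← sq]
    congr 1
    rw [Finset.sum_comm, Finset.sum_comm (f := fun a b => ∑ x, f x * f (φ a * (φ b * x)))]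
    exact Finset.sum_congr rfl fun b _ => Finset.sum_comm
  rw [e]
  simp only [disp_eq, Finset.sum_sub_distrib, Finset.sum_const, Finset.card_univ, nsmul_eq_mul,
    ← Finset.mul_sum]
  field_simp

theorem poincare [Nonempty A] (φ : A → H) (ι : A ≃ A) (hι : ∀ a, φ (ι a) = (φ a)⁻¹)
    (f : H → ℝ) (hf : ∀ x, 0 ≤ f x) (hs : ∑ x, f x = 1) (r : ℕ) (T : Finset H)
    (hT : ∀ g ∈ T, ∃ w : List A, w.length = 2 * r ∧ (w.map φ).prod = g) :
    T.card * ∑ x, f x * f x ≤ 1 + T.card * ((r : ℝ) ^ 2 * (Fintype.card A : ℝ) ^ 2 *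
      (∑ x, f x * f x - ∑ x, avg φ f x * avg φ f x)) := by
  set Δ := ∑ x, f x * f x - ∑ x, avg φ f x * avg φ f x with hΔ
  have hK : ∀ a b, disp f (φ a * φ b) ≤ 2 * (Fintype.card A : ℝ) ^ 2 * Δ := by
    intro a b
    rw [hΔ, avg_energy φ ι hι]
    exact le_trans (Finset.single_le_sum (f := fun b => disp f (φ a * φ b))
      (fun b _ => disp_nonneg _ _) (Finset.mem_univ b))
      (Finset.single_le_sum (f := fun a => ∑ b, disp f (φ a * φ b))
        (fun a _ => Finset.sum_nonneg fun b _ => disp_nonneg _ _) (Finset.mem_univ a))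
  have h1 : ∀ g ∈ T, ∑ x, f x * f x ≤ ∑ x, f x * f (g * x) +
      (r : ℝ) ^ 2 * (Fintype.card A : ℝ) ^ 2 * Δ := by
    intro g hg
    obtain ⟨w, hw, rfl⟩ := hT g hg
    have a1 := disp_word φ f _ hK r w hw
    rw [disp_eq] at a1
    linarith
  have h2 : ∑ g ∈ T, ∑ x, f x * f (g * x) ≤ 1 := by
    rw [Finset.sum_comm, ← hs]
    apply Finset.sum_le_sum
    intro x _
    rw [← Finset.mul_sum]
    have a1 : ∑ g ∈ T, f (g * x) ≤ ∑ g, f (g * x) :=
      Finset.sum_le_sum_of_subset_of_nonneg (Finset.subset_univ _) fun g _ _ => hf _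
    have a2 : ∑ g, f (g * x) = 1 := by
      rw [← hs]; exact Equiv.sum_comp (Equiv.mulRight x) f
    calc f x * ∑ g ∈ T, f (g * x) ≤ f x * 1 := mul_le_mul_of_nonneg_left (a2 ▸ a1) (hf x)
      _ = f x := mul_one _
  have h3 := Finset.sum_le_sum h1
  simp only [Finset.sum_const, nsmul_eq_mul, Finset.sum_add_distrib] at h3
  linarith

theorem avg_iterate [Nonempty A] (φ : A → H) (n : ℕ) : ∀ (f : H → ℝ) (x : H),
    (avg φ)^[n] f x =
      (∑ w : Fin n → A, f (((List.ofFn w).map φ).prod * x)) / (Fintype.card A : ℝ) ^ n := by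
  induction n with
  | zero => intro f x; simp
  | succ n ih =>
    intro f x
    rw [Function.iterate_succ_apply, ih, ← (Fin.consEquiv (fun _ => A)).sum_comp,
      Fintype.sum_prod_type, Finset.sum_comm]
    simp only [avg, ← Finset.sum_div, div_div, ← pow_succ']
    congr 1
    apply Finset.sum_congr rfl
    intro w _
    apply Finset.sum_congr rfl
    intro a _
    simp [Fin.consEquiv, List.ofFn_succ, mul_assoc]

open Classical in
theorem return_bound [Nonempty A] (φ : A → H) (ι : A ≃ A) (hι : ∀ a, φ (ι a) = (φ a)⁻¹)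
    (L R : ℕ) (hL : 1 ≤ L)
    (hT : ∀ r, 1 ≤ r → r ≤ R → ∃ T : Finset H, r ^ 2 ≤ T.card ∧
      ∀ g ∈ T, ∃ w : List A, w.length = 2 * (L * r) ∧ (w.map φ).prod = g)
    (r n : ℕ) (hr : 1 ≤ r) (hR : r ≤ R) (hn : 16 * (L * Fintype.card A) ^ 2 * r ^ 2 ≤ n) :
    ((univ.filter (fun w : Fin n → A => ((List.ofFn w).map φ).prod = 1)).card : ℝ) ≤
      2 / (r : ℝ) ^ 2 * (Fintype.card A : ℝ) ^ n := by
  have hA : (0 : ℝ) < Fintype.card A := by exact_mod_cast Fintype.card_pos
  have hA' : 1 ≤ Fintype.card A := Fintype.card_pos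
  let δ : H → ℝ := fun x => if x = 1 then 1 else 0
  let q : ℕ → H → ℝ := fun i => (avg φ)^[i] δ
  have hq : ∀ i, q (i + 1) = avg φ (q i) := fun i => Function.iterate_succ_apply' _ _ _
  have hnn : ∀ i x, 0 ≤ q i x := by
    intro i
    induction i with
    | zero => intro x; simp only [q, δ, Function.iterate_zero, id]; split_ifs <;> norm_num
    | succ i ih =>
      intro x
      rw [hq]
      exact div_nonneg (Finset.sum_nonneg fun a _ => ih _) hA.le
  have hsum : ∀ i, ∑ x, q i x = 1 := by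
    intro i
    induction i with
    | zero => simp [q, δ]
    | succ i ih =>
      rw [hq]
      simp only [avg, ← Finset.sum_div]
      rw [Finset.sum_comm]
      simp only [sum_translate (q i), ih]
      simp
  let u : ℕ → ℝ := fun i => ∑ x, q i x * q i x
  have hanti : Antitone u := by
    apply antitone_nat_of_succ_le
    intro i
    have h1 := avg_energy φ ι hι (q i)
    have h2 : 0 ≤ ∑ a, ∑ b, disp (q i) (φ a * φ b) :=
      Finset.sum_nonneg fun a _ => Finset.sum_nonneg fun b _ => disp_nonneg _ _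
    rw [← h1, ← hq] at h2
    have h3 := nonneg_of_mul_nonneg_right h2 (by positivity)
    simp only [u]
    linarith
  have hdec := seq_decay u hanti (by simp [u, q, δ]) ((L * Fintype.card A) ^ 2) R
    (Nat.one_le_pow _ _ (Nat.mul_pos hL hA')) (by
      intro i s hs1 hs2
      obtain ⟨T, hT1, hT2⟩ := hT s hs1 hs2
      have h1 := poincare φ ι hι (q i) (hnn i) (hsum i) (L * s) T hT2
      rw [← hq] at h1
      have hs' : (0 : ℝ) < (s : ℝ) ^ 2 := by positivity
      have hT' : (s : ℝ) ^ 2 ≤ T.card := by exact_mod_cast hT1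
      have hTpos : (0 : ℝ) < T.card := lt_of_lt_of_le hs' hT'
      have h2 : 1 / (T.card : ℝ) ≤ 1 / (s : ℝ) ^ 2 := one_div_le_one_div_of_le hs' hT'
      have h3 : u i ≤ 1 / (T.card : ℝ) + ((L * s : ℕ) : ℝ) ^ 2 * (Fintype.card A : ℝ) ^ 2 *
          (u i - u (i + 1)) := by
        apply le_of_mul_le_mul_left _ hTpos
        rw [mul_add, mul_one_div_cancel hTpos.ne']
        exact h1
      push_cast at h3 ⊢
      calc u i ≤ _ := h3
        _ ≤ _ := by
          apply add_le_add h2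
          apply le_of_eq
          ring) r hr hR
  have hadj : ∀ i j, ∑ x, q (i + j) x * δ x = ∑ x, q i x * q j x := by
    intro i j
    induction j generalizing i with
    | zero => rfl
    | succ j ih => rw [← add_assoc, add_right_comm, ih (i + 1), hq, avg_adj φ ι hι, ← hq]
  rw [show 16 * (L * Fintype.card A) ^ 2 * r ^ 2 =
    2 * (8 * (L * Fintype.card A) ^ 2 * r ^ 2) by ring] at hn
  set i := 8 * (L * Fintype.card A) ^ 2 * r ^ 2 with hi
  obtain ⟨j, rfl⟩ := Nat.exists_eq_add_of_le (show i ≤ n by omega)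
  have h1 : q (i + j) 1 ≤ 2 / (r : ℝ) ^ 2 := by
    have a1 : q (i + j) 1 = ∑ x, q i x * q j x := by rw [← hadj]; simp [δ]
    have a2 : 2 * ∑ x, q i x * q j x ≤ u i + u j := by
      simp only [u]
      rw [Finset.mul_sum, ← Finset.sum_add_distrib]
      exact Finset.sum_le_sum fun x _ => by nlinarith [sq_nonneg (q i x - q j x)]
    have a3 : u j ≤ u i := hanti (by omega)
    linarith
  simp only [q, avg_iterate, δ, mul_one] at h1
  rw [div_le_iff₀ (by positivity)] at h1
  simpa using h1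

end Pool.Agent.MP_0946c8_al

end

section

set_option autoImplicit false

namespace Pool.Agent.MP_0946c8_al

open Finset

variable {A : Type} {m : ℕ}

/-- Integer update matrix on the coordinates (defect, scalar). -/
def Lz (N : ℕ) (M : A → Matrix (Fin m) (Fin m) ℤ) (a : A) :
    Option (Fin m × Fin m) → Option (Fin m × Fin m) → ℤ
  | none, none => N
  | none, some _ => 0
  | some p, none => M a p.1 p.2 - if p.1 = p.2 then (N : ℤ) else 0
  | some p, some p' => if p'.1 = p.1 then M a p'.2 p.2 else 0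

/-- Splitting an integer matrix into a matrix of naturals on positive and negative parts. -/
def splitSign {D : Type} (L : A → D → D → ℤ) (a : A) (d e : D × Bool) : ℕ :=
  if d.2 = e.2 then (L a d.1 e.1).toNat else (-(L a d.1 e.1)).toNat

theorem lin_splitSign {D : Type} [Fintype D] (L : A → D → D → ℤ) (a : A) (v : D × Bool → ℕ)
    (d : D) : (lin (splitSign L) a v (d, true) : ℤ) - lin (splitSign L) a v (d, false) =
      ∑ e, L a d e * ((v (e, true) : ℤ) - v (e, false)) := by
  simp only [lin, Fintype.sum_prod_type, Fintype.sum_bool, splitSign]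
  push_cast
  rw [← Finset.sum_sub_distrib]
  apply Finset.sum_congr rfl
  intro e _
  have h := Int.toNat_sub_toNat_neg (L a d e)
  linear_combination ((v (e, true) : ℤ) - v (e, false)) * h

theorem foldl_defect (N : ℕ) (M : A → Matrix (Fin m) (Fin m) ℤ)
    (v0 : Option (Fin m × Fin m) × Bool → ℕ)
    (h1 : (v0 (none, true) : ℤ) - v0 (none, false) = 1)
    (h2 : ∀ p, (v0 (some p, true) : ℤ) - v0 (some p, false) = 0) (w : List A) :
    ((w.foldl (fun u a => lin (splitSign (Lz N M)) a u) v0 (none, true) : ℤ) -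
      w.foldl (fun u a => lin (splitSign (Lz N M)) a u) v0 (none, false) = (N : ℤ) ^ w.length) ∧
    ∀ p, (w.foldl (fun u a => lin (splitSign (Lz N M)) a u) v0 (some p, true) : ℤ) -
      w.foldl (fun u a => lin (splitSign (Lz N M)) a u) v0 (some p, false) =
        defect N M w p.1 p.2 := by
  induction w using List.reverseRecOn with
  | nil => exact ⟨by simpa using h1, fun p => by simpa [defect] using h2 p⟩
  | append_singleton w a ih =>
    rw [List.foldl_append, List.foldl_cons, List.foldl_nil]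
    refine ⟨?_, fun p => ?_⟩
    · rw [lin_splitSign, Fintype.sum_option, ih.1]
      simp [Lz, pow_succ']
    · rw [lin_splitSign, Fintype.sum_option, ih.1]
      simp only [ih.2, Lz, Fintype.sum_prod_type, ite_mul, zero_mul]
      rw [Finset.sum_comm]
      simp only [Finset.sum_ite_eq', Finset.mem_univ, if_true, defect, List.map_append,
        List.prod_append, List.map_singleton, List.prod_singleton, List.length_append,
        List.length_singleton, Matrix.sub_apply, Matrix.mul_apply, Matrix.smul_apply,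
        Matrix.one_apply, smul_eq_mul, mul_sub, Finset.sum_sub_distrib, mul_ite, mul_one,
        mul_zero, Finset.sum_ite_eq, pow_succ]
      rw [Finset.sum_congr rfl (fun x _ => mul_comm (M a x p.2) _)]
      split_ifs <;> ring

/-- The word problem for `γ` is solved by a multitape machine with running time `T`. -/
def Solves {G : Type} [Group G] (γ : A → G) (T : List A → ℕ) : Prop :=
  ∃ (Γ Q : Type) (_ : Inhabited Γ) (_ : Finite Γ) (_ : Finite Q) (k : ℕ)
    (M : MultiTapeTM A Γ Q k), ∀ w, ∃ b, M.HaltsAt w (T w) b ∧ (b = true ↔ (w.map γ).prod = 1)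

theorem solves_of_automaton {G : Type} [Group G] [Fintype A] (γ : A → G)
    (h : ∃ (R : Type) (_ : Finite R) (r0 : R) (next : R → A → R) (c : R → A → ℤ),
      ∀ w : List A, w.foldl (cstep next c) (r0, 0) = (r0, 0) ↔ (w.map γ).prod = 1) :
    Solves γ (fun w => w.length + 2) := by
  obtain ⟨R, hR, r0, next, c, h⟩ := h
  obtain ⟨B, hB⟩ := (Set.finite_range fun p : R × A => (c p.1 p.2).natAbs).bddAbove
  have hB' : ∀ r a, |c r a| ≤ B := by
    intro r a
    have : (c r a).natAbs ≤ B := hB ⟨(r, a), rfl⟩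
    rw [Int.abs_eq_natAbs]
    exact_mod_cast this
  refine ⟨_, _, inferInstance, inferInstance, inferInstance, 1, counterTM r0 next c B, ?_⟩
  intro w
  obtain ⟨b, h1, h2⟩ := counter_halts r0 next c B hB' w
  exact ⟨b, h1, h2.trans (h w)⟩

open Classical in
theorem solves_by_digits [Fintype A] {γ : A → GL (Fin m) ℚ} {N : ℕ}
    {M : A → Matrix (Fin m) (Fin m) ℤ} (hN : 1 ≤ N)
    (hM : ∀ a, (Int.castRingHom ℚ).mapMatrix (M a) = (N : ℚ) • (γ a : Matrix (Fin m) (Fin m) ℚ)) :
    ∃ (T : List A → ℕ) (K : ℕ), Solves γ T ∧ ∀ w, T w ≤ (2 * w.length + 2) *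
      ((range (K * w.length + 1)).filter (fun k => ∀ i j,
        (((N + 1) ^ k : ℕ) : ℤ) ∣ defect N M w i j)).card := by
  let L := splitSign (Lz N M)
  obtain ⟨B, hB⟩ := (Set.finite_range
    fun p : A × (Option (Fin m × Fin m) × Bool) => ∑ e, L p.1 p.2 e).bddAbove
  have hB' : ∀ a d, ∑ e, L a d e ≤ B := fun a d => hB ⟨(a, d), rfl⟩
  let v0 : Option (Fin m × Fin m) × Bool → Fin (N + 1) := fun d =>
    if d = (none, true) then ⟨1, by omega⟩ else 0
  have h := digit_machine L N B hB' hN v0 (fun p : Fin m × Fin m => (some p, true))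
    (fun p => (some p, false))
  choose T b h1 h2 h3 using h
  have hd := fun w => (foldl_defect N M (fun d => v0 d) (by simp [v0]) (by simp [v0]) w).2
  refine ⟨T, B, ⟨_, _, inferInstance, inferInstance, inferInstance, 0, _,
    fun w => ⟨b w, h1 w, (h2 w).trans ?_⟩⟩, fun w => (h3 w).trans ?_⟩
  · rw [← defect_eq_zero_iff hN hM, ← Matrix.ext_iff, Prod.forall]
    refine forall_congr' fun i => forall_congr' fun j => ?_
    rw [← hd w (i, j), Matrix.zero_apply, sub_eq_zero, Nat.cast_inj]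
  · apply Nat.mul_le_mul_left
    apply Finset.card_le_card
    intro k hk
    simp only [Finset.mem_filter] at hk ⊢
    refine ⟨hk.1, fun i j => ?_⟩
    rw [← hd w (i, j)]
    exact (Nat.modEq_iff_dvd.mp (hk.2 (i, j)).symm)

open Classical in
theorem congruence_prob [Fintype A] [Nonempty A] {γ : A → GL (Fin m) ℚ} {N : ℕ}
    {M : A → Matrix (Fin m) (Fin m) ℤ} (hN : 1 ≤ N)
    (hM : ∀ a, (Int.castRingHom ℚ).mapMatrix (M a) = (N : ℚ) • (γ a : Matrix (Fin m) (Fin m) ℚ))
    (ι : A ≃ A) (hι : ∀ a, γ (ι a) = (γ a)⁻¹) (L : ℕ) (hL : 1 ≤ L)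
    (hF : ∀ r, ∃ F : Finset (GL (Fin m) ℚ), r ^ 2 ≤ F.card ∧
      ∀ g ∈ F, ∃ w : List A, w.length = 2 * (L * r) ∧ (w.map γ).prod = g) :
    ∃ c : ℕ, 1 ≤ c ∧ ∀ r n k : ℕ, 1 ≤ r → c * r ≤ k → c * r ^ 2 ≤ n →
      ((univ.filter (fun w : Fin n → A => ∀ i j,
        (((N + 1) ^ k : ℕ) : ℤ) ∣ defect N M (List.ofFn w) i j)).card : ℝ) ≤
          2 / (r : ℝ) ^ 2 * (Fintype.card A : ℝ) ^ n := by
  obtain ⟨B0, hB0⟩ := (Set.finite_range
    fun p : A × Fin m => ∑ j, (M p.1 p.2 j).natAbs).bddAbove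
  let B := B0 + N
  have hB : ∀ a i, ∑ j, |M a i j| ≤ B := by
    intro a i
    have h1 : ∑ j, (M a i j).natAbs ≤ B0 := hB0 ⟨(a, i), rfl⟩
    have h2 : ((∑ j, (M a i j).natAbs : ℕ) : ℤ) ≤ B := by exact_mod_cast h1.trans (by omega)
    simpa using h2
  refine ⟨4 * L * B + 2 + 16 * (L * Fintype.card A) ^ 2, by omega, ?_⟩
  intro r n k hr hk hn
  have hcop : Nat.Coprime N ((N + 1) ^ k) := Nat.Coprime.pow_right _ (by simp)
  obtain ⟨φ, hφ1, hφ2⟩ := exists_reduction hM ι hι _ hcop
  have : NeZero ((N + 1) ^ k) := ⟨by positivity⟩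
  have hb := return_bound φ ι hφ1 L r hL ?_ r n hr le_rfl (le_trans (Nat.mul_le_mul_right _ (by omega)) hn)
  · simpa only [hφ2] using hb
  intro s hs1 hs2
  obtain ⟨F, hF1, hF2⟩ := hF s
  choose! W hW1 hW2 using hF2
  refine ⟨F.image (fun g => ((W g).map φ).prod), ?_, ?_⟩
  · rw [Finset.card_image_of_injOn]
    · exact hF1
    intro g hg g' hg' e
    simp only at e
    have e1 : ((W g ++ ((W g').map ι).reverse).map φ).prod = 1 := by
      rw [List.map_append, List.prod_append, prod_inv_word φ ι hφ1, e, mul_inv_cancel]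
    have e2 : defect N M (W g ++ ((W g').map ι).reverse) = 0 := by
      ext i j
      apply Int.eq_zero_of_abs_lt_dvd ((hφ2 _).mp e1 i j)
      refine lt_of_le_of_lt (defect_bound B hB (by omega) _ i j) ?_
      simp only [List.length_append, List.length_reverse, List.length_map, hW1 g hg, hW1 g' hg']
      have a1 : B ≤ (N + 1) ^ B :=
        le_trans Nat.lt_two_pow_self.le (Nat.pow_le_pow_left (by omega) B)
      have a2 : B ^ (2 * (L * s) + 2 * (L * s)) ≤ (N + 1) ^ (B * (2 * (L * s) + 2 * (L * s))) := by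
        rw [pow_mul]; exact Nat.pow_le_pow_left a1 _
      have a3 : B * (2 * (L * s) + 2 * (L * s)) + 2 ≤ k := by
        have : B * (L * s) ≤ B * (L * r) := by gcongr
        nlinarith
      have a4 : (N + 1) ^ (B * (2 * (L * s) + 2 * (L * s)) + 2) ≤ (N + 1) ^ k :=
        Nat.pow_le_pow_right (by omega) a3
      have a5 : 1 ≤ (N + 1) ^ (B * (2 * (L * s) + 2 * (L * s))) := Nat.one_le_pow _ _ (by omega)
      have a6 : 4 ≤ (N + 1) ^ 2 := by nlinarith
      rw [pow_add (N + 1) _ 2] at a4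
      have a7 : 2 * B ^ (2 * (L * s) + 2 * (L * s)) < (N + 1) ^ k := by nlinarith
      exact_mod_cast a7
    rw [defect_eq_zero_iff hN hM, List.map_append, List.prod_append, prod_inv_word γ ι hι,
      mul_inv_eq_one, hW2 g hg, hW2 g' hg'] at e2
    exact e2
  · intro x hx
    obtain ⟨g, hg, rfl⟩ := Finset.mem_image.mp hx
    exact ⟨W g, hW1 g hg, rfl⟩

theorem sum_prob_bound (c K n : ℕ) (hc : 1 ≤ c) (hn : c ≤ n) (P : ℕ → ℝ) (hP : ∀ k, P k ≤ 1)
    (h : ∀ r k : ℕ, 1 ≤ r → c * r ≤ k → c * r ^ 2 ≤ n → P k ≤ 2 / (r : ℝ) ^ 2) :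
    ∑ k ∈ range (K * n + 1), P k ≤ 16 * (c : ℝ) ^ 2 + 8 * c * (K + 1) := by
  have hc' : (1 : ℝ) ≤ c := by exact_mod_cast hc
  have hn' : (1 : ℝ) ≤ n := by exact_mod_cast hc.trans hn
  let ρ := Nat.sqrt (n / c)
  have hρ1 : 1 ≤ ρ := Nat.le_sqrt'.mpr (by simpa using (Nat.le_div_iff_mul_le hc).mpr (by omega))
  have hρ2 : c * ρ ^ 2 ≤ n :=
    le_trans (Nat.mul_le_mul_left c (Nat.sqrt_le' _)) (Nat.mul_div_le n c)
  have hρ3 : n ≤ c * (4 * ρ ^ 2) := by
    have a1 : n / c < (ρ + 1) ^ 2 := Nat.lt_succ_sqrt' _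
    have a2 : n < c * (n / c + 1) := Nat.lt_mul_div_succ n hc
    have a3 : (ρ + 1) ^ 2 ≤ 4 * ρ ^ 2 := by nlinarith
    have a4 : c * (n / c + 1) ≤ c * (4 * ρ ^ 2) := Nat.mul_le_mul_left c (by omega)
    omega
  have key : ∀ k : ℕ, P k ≤ 16 * (c : ℝ) ^ 2 * (1 / ((k : ℝ) + 1) - 1 / ((k : ℝ) + 2)) +
      8 * c / n := by
    intro k
    have e : 1 / ((k : ℝ) + 1) - 1 / ((k : ℝ) + 2) = 1 / (((k : ℝ) + 1) * (k + 2)) := by
      field_simp
      ring
    rw [e, mul_one_div]
    have p1 : (0 : ℝ) ≤ 8 * c / n := by positivity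
    have p2 : (0 : ℝ) ≤ 16 * (c : ℝ) ^ 2 / (((k : ℝ) + 1) * (k + 2)) := by positivity
    have hk0 : (0 : ℝ) ≤ k := by positivity
    by_cases hkc : k < c
    · have a1 : (k : ℝ) + 1 ≤ c := by exact_mod_cast hkc
      have a2 : 1 ≤ 16 * (c : ℝ) ^ 2 / (((k : ℝ) + 1) * (k + 2)) := by
        rw [le_div_iff₀ (by positivity)]
        nlinarith
      linarith [hP k]
    · have b1 : 1 ≤ k / c := (Nat.le_div_iff_mul_le hc).mpr (by omega)
      by_cases hmin : ρ ≤ k / c
      · have a1 := h ρ k hρ1 (le_trans (Nat.mul_le_mul_left c hmin) (Nat.mul_div_le k c)) hρ2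
        have a2 : 2 / (ρ : ℝ) ^ 2 ≤ 8 * c / n := by
          have : (0 : ℝ) < ρ := by exact_mod_cast hρ1
          rw [div_le_div_iff₀ (by positivity) (by positivity)]
          have a3 : (n : ℝ) ≤ c * (4 * (ρ : ℝ) ^ 2) := by exact_mod_cast hρ3
          linarith
        linarith
      · have a0 : (k / c) ^ 2 ≤ ρ ^ 2 := Nat.pow_le_pow_left (by omega) 2
        have a1 := h (k / c) k b1 (Nat.mul_div_le k c)
          (le_trans (Nat.mul_le_mul_left c a0) hρ2)
        have a2 : k + 1 ≤ 2 * (c * (k / c)) := by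
          have a3 : k < c * (k / c + 1) := Nat.lt_mul_div_succ k hc
          have a4 : c * (k / c + 1) ≤ c * (2 * (k / c)) := Nat.mul_le_mul_left c (by omega)
          have a5 : c * (2 * (k / c)) = 2 * (c * (k / c)) := by ring
          omega
        have a3 : (k : ℝ) + 1 ≤ 2 * (c * ((k / c : ℕ) : ℝ)) := by exact_mod_cast a2
        have a4 : 2 / ((k / c : ℕ) : ℝ) ^ 2 ≤ 16 * (c : ℝ) ^ 2 / (((k : ℝ) + 1) * (k + 2)) := by
          have : (0 : ℝ) < ((k / c : ℕ) : ℝ) := by exact_mod_cast b1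
          rw [div_le_div_iff₀ (by positivity) (by positivity)]
          have a5 : ((k : ℝ) + 1) ^ 2 ≤ (2 * (c * ((k / c : ℕ) : ℝ))) ^ 2 := by gcongr
          nlinarith
        linarith
  have tele : ∀ t : ℕ, ∑ k ∈ range t, (1 / ((k : ℝ) + 1) - 1 / ((k : ℝ) + 2)) =
      1 - 1 / ((t : ℝ) + 1) := by
    intro t
    induction t with
    | zero => simp
    | succ t ih =>
      rw [Finset.sum_range_succ, ih]
      push_cast
      ring
  refine (Finset.sum_le_sum fun k _ => key k).trans ?_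
  rw [Finset.sum_add_distrib, ← Finset.mul_sum, tele, Finset.sum_const, Finset.card_range,
    nsmul_eq_mul]
  have q1 : (0 : ℝ) ≤ 1 / (((K * n + 1 : ℕ) : ℝ) + 1) := by positivity
  have q2 : ((K * n + 1 : ℕ) : ℝ) * (8 * c / n) ≤ 8 * c * (K + 1) := by
    rw [← mul_div_assoc, div_le_iff₀ (by positivity)]
    push_cast
    nlinarith
  nlinarith

theorem main_theorem [Fintype A] (γ : A → GL (Fin m) ℚ) (ι : A ≃ A)
    (hι : ∀ a, γ (ι a) = (γ a)⁻¹) :
    ∃ T : List A → ℕ, Solves γ T ∧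
      (fun n : ℕ => (∑ w : Fin n → A, (T (List.ofFn w) : ℝ)) / (Fintype.card A : ℝ) ^ n)
        =O[Filter.atTop] (fun n : ℕ => (n : ℝ)) := by
  classical
  have lin_case : Solves γ (fun w => w.length + 2) → ∃ T : List A → ℕ, Solves γ T ∧
      (fun n : ℕ => (∑ w : Fin n → A, (T (List.ofFn w) : ℝ)) / (Fintype.card A : ℝ) ^ n)
        =O[Filter.atTop] (fun n : ℕ => (n : ℝ)) := by
    intro h
    refine ⟨_, h, Asymptotics.IsBigO.of_bound 3 ?_⟩
    filter_upwards [Filter.eventually_ge_atTop 1] with n hn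
    have hn' : (1 : ℝ) ≤ n := by exact_mod_cast hn
    rw [Real.norm_of_nonneg (by positivity), Real.norm_of_nonneg (by positivity)]
    apply div_le_of_le_mul₀ (by positivity) (by positivity)
    simp only [List.length_ofFn, Finset.sum_const, Finset.card_univ, Fintype.card_fun,
      Fintype.card_fin, nsmul_eq_mul]
    push_cast
    rw [mul_comm]
    gcongr
    linarith
  rcases finite_or_infinite_order γ ι hι with hfin | ⟨u, hu⟩
  · exact lin_case (solves_of_automaton γ (automaton_of_finite γ hfin))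
  by_cases hcos : (Set.range fun w : List A => cls (u.map γ).prod (w.map γ).prod).Finite
  · exact lin_case (solves_of_automaton γ (automaton_of_finite_cosets γ _ hu hcos))
  obtain ⟨a0⟩ : Nonempty A := by
    rcases u with _ | ⟨a, u⟩
    · exact (hu (by simp)).elim
    · exact ⟨a⟩
  have : Nonempty A := ⟨a0⟩
  obtain ⟨N, M, hN, hM⟩ := exists_integral_model γ
  obtain ⟨T, K, hT1, hT2⟩ := solves_by_digits hN hM
  obtain ⟨c, hc1, hc2⟩ := congruence_prob hN hM ι hι (u.length + 1) (by omega)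
    (quadratic_growth γ a0 (ι a0) (by simp [hι]) u hu hcos)
  refine ⟨T, hT1, Asymptotics.IsBigO.of_bound (4 * (16 * (c : ℝ) ^ 2 + 8 * c * (K + 1))) ?_⟩
  filter_upwards [Filter.eventually_ge_atTop c] with n hn
  have hn' : (1 : ℝ) ≤ n := by exact_mod_cast hc1.trans hn
  have hA : (0 : ℝ) < (Fintype.card A : ℝ) ^ n := by
    have : (0 : ℝ) < Fintype.card A := by exact_mod_cast Fintype.card_pos
    positivity
  rw [Real.norm_of_nonneg (by positivity), Real.norm_of_nonneg (by positivity)]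
  let P : ℕ → ℝ := fun k => ((univ.filter (fun w : Fin n → A => ∀ i j,
    (((N + 1) ^ k : ℕ) : ℤ) ∣ defect N M (List.ofFn w) i j)).card : ℝ) / (Fintype.card A : ℝ) ^ n
  have h1 := sum_prob_bound c K n hc1 hn P
    (fun k => by
      apply div_le_one_of_le₀ _ hA.le
      have := Finset.card_filter_le (univ : Finset (Fin n → A)) (fun w => ∀ i j,
        (((N + 1) ^ k : ℕ) : ℤ) ∣ defect N M (List.ofFn w) i j)
      simp only [Finset.card_univ, Fintype.card_fun, Fintype.card_fin] at this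
      exact_mod_cast this)
    (fun r k a1 a2 a3 => (div_le_iff₀ hA).mpr (hc2 r n k a1 a2 a3))
  have h2 : ∑ w : Fin n → A, (T (List.ofFn w) : ℝ) ≤
      (2 * n + 2) * ∑ k ∈ range (K * n + 1), ((univ.filter (fun w : Fin n → A => ∀ i j,
        (((N + 1) ^ k : ℕ) : ℤ) ∣ defect N M (List.ofFn w) i j)).card : ℝ) := by
    simp only [Finset.card_filter]
    push_cast
    rw [Finset.sum_comm, Finset.mul_sum]
    apply Finset.sum_le_sum
    intro w _
    have := hT2 (List.ofFn w)
    simp only [List.length_ofFn, Finset.card_filter] at this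
    exact_mod_cast this
  calc _ ≤ ((2 * n + 2) * ∑ k ∈ range (K * n + 1), ((univ.filter (fun w : Fin n → A => ∀ i j,
        (((N + 1) ^ k : ℕ) : ℤ) ∣ defect N M (List.ofFn w) i j)).card : ℝ)) /
          (Fintype.card A : ℝ) ^ n := div_le_div_of_nonneg_right h2 hA.le
    _ = (2 * n + 2) * ∑ k ∈ range (K * n + 1), P k := by
        rw [mul_div_assoc, Finset.sum_div]
    _ ≤ (4 * n) * (16 * (c : ℝ) ^ 2 + 8 * c * (K + 1)) := by
        apply mul_le_mul (by linarith) h1 _ (by positivity)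
        exact Finset.sum_nonneg fun k _ => by positivity
    _ = _ := by ring

end Pool.Agent.MP_0946c8_al

end
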